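import Mathlib
import Pool.Agent.Lib.MP_563419_an.Defs

/-! The manifold `Q × ℂ^T`, `Q = {p (1 - p) = q r}`. -/

open MvPolynomial Sum

set_option linter.unusedSectionVars false

namespace Pool.Agent.Lib.MP_563419_an.Ins

/-- Index set of the coordinates of `ℂ^3 × ℂ^T`. -/
abbrev Idx (T : Type) : Type := Fin 3 ⊕ T

/-- `Z = Q × ℂ^T`, with `Q = {p (1 - p) = q r} ⊆ ℂ³`. -/
def Zset (T : Type) : Set (Idx T → ℂ) :=
  {x | x (inl 0) * (1 - x (inl 0)) = x (inl 1) * x (inl 2)}

/-- the defining polynomial -/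
noncomputable def Fpol (T : Type) : MvPolynomial (Idx T) ℂ :=
  X (inl 0) - X (inl 0) ^ 2 - X (inl 1) * X (inl 2)

lemma irreducible_Fpol (T : Type) [Fintype T] [DecidableEq T] : Irreducible (Fpol T) := by
  have h := irreducible_mul_X_add (R := ℂ) (-X (inl 2) : MvPolynomial (Idx T) ℂ)
    (X (inl 0) - X (inl 0) ^ 2) (inl 1) (neg_ne_zero.2 (X_ne_zero _)) ?_ ?_ ?_
  · have e : Fpol T = -X (inl 2) * X (inl 1) + (X (inl 0) - X (inl 0) ^ 2) := by
      unfold Fpol; ring
    rw [e]; exact h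
  · rw [vars_neg, vars_X]; simp
  · intro hmem
    have h1 := vars_sub_subset (p := (X (inl 0) : MvPolynomial (Idx T) ℂ)) (q := X (inl 0) ^ 2) hmem
    have h2 : (inl 1 : Idx T) ∈ (X (inl 0) : MvPolynomial (Idx T) ℂ).vars := by
      rcases Finset.mem_union.1 h1 with h3 | h3
      · exact h3
      · exact vars_pow _ _ h3
    rw [vars_X] at h2
    simp at h2
  · have hirr : Irreducible (X (inl 2) : MvPolynomial (Idx T) ℂ) := X_prime.irreducible
    have h1 : IsRelPrime (X (inl 2) : MvPolynomial (Idx T) ℂ) (X (inl 0) - X (inl 0) ^ 2) := by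
      rw [hirr.isRelPrime_iff_not_dvd]
      rintro ⟨c, hc⟩
      have := congrArg (eval (fun i : Idx T => if i = inl 0 then (2 : ℂ) else 0)) hc
      simp at this
      norm_num at this
    exact h1.neg_left

noncomputable abbrev I (T : Type) : Ideal (MvPolynomial (Idx T) ℂ) := Ideal.span {Fpol T}

instance prime_I (T : Type) [Fintype T] [DecidableEq T] : (I T).IsPrime :=
  (Ideal.span_singleton_prime (irreducible_Fpol T).ne_zero).2 (irreducible_Fpol T).prime

lemma zeroLocus_I (T : Type) [Fintype T] [DecidableEq T] : zeroLocus ℂ (I T) = Zset T := by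
  rw [zeroLocus_span]
  ext x
  simp only [Set.mem_singleton_iff, forall_eq, Set.mem_ofPred_eq, Zset, Fpol, map_sub, map_mul,
    map_pow, aeval_X]
  constructor
  · intro h; linear_combination h
  · intro h; linear_combination h

lemma vanishing_Z (T : Type) [Fintype T] [DecidableEq T] : vanishingIdeal ℂ (Zset T) = I T := by
  rw [← zeroLocus_I]
  exact MvPolynomial.IsPrime.vanishingIdeal_zeroLocus _


section AOSDP

variable (T : Type) [Fintype T] [DecidableEq T] [Inhabited T]

/-- the field `p ↦ r, q ↦ 1 - 2p, r ↦ 0` -/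
noncomputable def V1 : Derivation ℂ (MvPolynomial (Idx T) ℂ) (MvPolynomial (Idx T) ℂ) :=
  mkDerivation ℂ (Sum.elim ![X (inl 2), 1 - 2 * X (inl 0), 0] (fun _ => 0))

/-- the field `p ↦ -q, q ↦ 0, r ↦ 2p - 1` -/
noncomputable def V2 : Derivation ℂ (MvPolynomial (Idx T) ℂ) (MvPolynomial (Idx T) ℂ) :=
  mkDerivation ℂ (Sum.elim ![-X (inl 1), 0, 2 * X (inl 0) - 1] (fun _ => 0))

lemma V1_0 : V1 T (X (inl 0)) = X (inl 2) := by simp [V1, mkDerivation_X]
lemma V1_1 : V1 T (X (inl 1)) = 1 - 2 * X (inl 0) := by simp [V1, mkDerivation_X]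
lemma V1_2 : V1 T (X (inl 2)) = 0 := by simp [V1, mkDerivation_X]
lemma V1_r (j) : V1 T (X (inr j)) = 0 := by simp [V1, mkDerivation_X]
lemma V2_0 : V2 T (X (inl 0)) = -X (inl 1) := by simp [V2, mkDerivation_X]
lemma V2_1 : V2 T (X (inl 1)) = 0 := by simp [V2, mkDerivation_X]
lemma V2_2 : V2 T (X (inl 2)) = 2 * X (inl 0) - 1 := by simp [V2, mkDerivation_X]
lemma V2_r (j) : V2 T (X (inr j)) = 0 := by simp [V2, mkDerivation_X]

lemma V1_F : V1 T (Fpol T) = 0 := by
  unfold Fpol
  rw [map_sub, map_sub, Derivation.leibniz, Derivation.leibniz_pow, V1_0, V1_1, V1_2]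
  simp only [smul_eq_mul, nsmul_eq_mul]
  push_cast
  ring

lemma V2_F : V2 T (Fpol T) = 0 := by
  unfold Fpol
  rw [map_sub, map_sub, Derivation.leibniz, Derivation.leibniz_pow, V2_0, V2_1, V2_2]
  simp only [smul_eq_mul, nsmul_eq_mul]
  push_cast
  ring

lemma pderiv_F (j : T) : pderiv (inr j) (Fpol T) = 0 := by
  unfold Fpol
  rw [map_sub, map_sub, Derivation.leibniz, Derivation.leibniz_pow]
  simp

abbrev A : Type := MvPolynomial (Idx T) ℂ ⧸ I T

noncomputable def D1 : Derivation ℂ (A T) (A T) := descend (I T) (V1 T) (preserves_span (V1_F T))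
noncomputable def D2 : Derivation ℂ (A T) (A T) := descend (I T) (V2 T) (preserves_span (V2_F T))
noncomputable def P (j : T) : Derivation ℂ (A T) (A T) :=
  descend (I T) (pderiv (inr j)) (preserves_span (pderiv_F T j))

/-- the image of a variable -/
noncomputable abbrev x (i : Idx T) : A T := Ideal.Quotient.mk (I T) (X i)

lemma D1_0 : D1 T (x T (inl 0)) = x T (inl 2) := by
  simp only [D1, x, descend_mk, V1_0]
lemma D1_1 : D1 T (x T (inl 1)) = 1 - 2 * x T (inl 0) := by
  simp only [D1, x, descend_mk, V1_1, map_sub, map_mul, map_one, map_ofNat]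
lemma D1_2 : D1 T (x T (inl 2)) = 0 := by
  simp only [D1, x, descend_mk, V1_2, map_zero]
lemma D1_r (j) : D1 T (x T (inr j)) = 0 := by
  simp only [D1, x, descend_mk, V1_r, map_zero]
lemma D2_0 : D2 T (x T (inl 0)) = -x T (inl 1) := by
  simp only [D2, x, descend_mk, V2_0, map_neg]
lemma D2_1 : D2 T (x T (inl 1)) = 0 := by
  simp only [D2, x, descend_mk, V2_1, map_zero]
lemma D2_2 : D2 T (x T (inl 2)) = 2 * x T (inl 0) - 1 := by
  simp only [D2, x, descend_mk, V2_2, map_sub, map_mul, map_one, map_ofNat]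
lemma D2_r (j) : D2 T (x T (inr j)) = 0 := by
  simp only [D2, x, descend_mk, V2_r, map_zero]
lemma P_l (j) (i : Fin 3) : P T j (x T (inl i)) = 0 := by
  simp only [P, x, descend_mk]
  rw [pderiv_X_of_ne (by simp), map_zero]
lemma P_r (j k) : P T j (x T (inr k)) = if k = j then 1 else 0 := by
  simp only [P, x, descend_mk]
  rw [pderiv_X, Pi.single_apply]
  by_cases h : k = j
  · subst h; simp
  · simp [h]

lemma rel : (1 - 2 * x T (inl 0)) ^ 2 + 4 * (x T (inl 1) * x T (inl 2)) = 1 := by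
  have h : Ideal.Quotient.mk (I T) (Fpol T) = 0 :=
    Ideal.Quotient.eq_zero_iff_mem.2 (Ideal.mem_span_singleton_self _)
  unfold Fpol at h
  rw [map_sub, map_sub, map_mul, map_pow] at h
  linear_combination (-4) * h

lemma rel' : x T (inl 0) - x T (inl 0) ^ 2 - x T (inl 1) * x T (inl 2) = 0 := by
  have h : Ideal.Quotient.mk (I T) (Fpol T) = 0 :=
    Ideal.Quotient.eq_zero_iff_mem.2 (Ideal.mem_span_singleton_self _)
  unfold Fpol at h
  rw [map_sub, map_sub, map_mul, map_pow] at h
  exact h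

lemma idx_cases {motive : Idx T → Prop} (h0 : motive (inl 0)) (h1 : motive (inl 1))
    (h2 : motive (inl 2)) (hr : ∀ j, motive (inr j)) : ∀ i, motive i := by
  rintro (i | j)
  · fin_cases i
    · exact h0
    · exact h1
    · exact h2
  · exact hr j

lemma lnd_D1 : IsLND (D1 T) := by
  refine isLND_of_gen (idx_cases T ?_ ?_ ?_ ?_)
  · refine ⟨2, ?_⟩
    change D1 T (D1 T (x T (inl 0))) = 0
    rw [D1_0, D1_2]
  · refine ⟨3, ?_⟩
    change D1 T (D1 T (D1 T (x T (inl 1)))) = 0
    have e : (2 : A T) * x T (inl 0) = x T (inl 0) + x T (inl 0) := by ring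
    rw [D1_1, map_sub, Derivation.map_one_eq_zero, e, map_add, D1_0, map_sub, map_zero, map_add,
      D1_2]
    simp
  · refine ⟨1, ?_⟩
    change D1 T (x T (inl 2)) = 0
    exact D1_2 T
  · intro j
    refine ⟨1, ?_⟩
    change D1 T (x T (inr j)) = 0
    exact D1_r T j

lemma lnd_D2 : IsLND (D2 T) := by
  refine isLND_of_gen (idx_cases T ?_ ?_ ?_ ?_)
  · refine ⟨2, ?_⟩
    change D2 T (D2 T (x T (inl 0))) = 0
    rw [D2_0, map_neg, D2_1, neg_zero]
  · refine ⟨1, ?_⟩
    change D2 T (x T (inl 1)) = 0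
    exact D2_1 T
  · refine ⟨3, ?_⟩
    change D2 T (D2 T (D2 T (x T (inl 2)))) = 0
    have e : (2 : A T) * x T (inl 0) = x T (inl 0) + x T (inl 0) := by ring
    rw [D2_2, map_sub, Derivation.map_one_eq_zero, e, map_add, D2_0, map_sub, map_zero, map_add,
      map_neg, D2_1]
    simp
  · intro j
    refine ⟨1, ?_⟩
    change D2 T (x T (inr j)) = 0
    exact D2_r T j

lemma lnd_P (j) : IsLND (P T j) := by
  refine isLND_of_gen ?_
  rintro (i | k)
  · refine ⟨1, ?_⟩
    change P T j (x T (inl i)) = 0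
    exact P_l T j i
  · refine ⟨2, ?_⟩
    change P T j (P T j (x T (inr k))) = 0
    rw [P_r]
    split_ifs
    · exact Derivation.map_one_eq_zero _
    · exact map_zero _

lemma smul_D1_mem (g : A T) : g • D1 T ∈ overshearLie (A T) :=
  smul_mem_of_pderiv (inr default) (preserves_span (pderiv_F T default)) (lnd_D1 T)
    (D1_r T default) g

lemma smul_D2_mem (g : A T) : g • D2 T ∈ overshearLie (A T) :=
  smul_mem_of_pderiv (inr default) (preserves_span (pderiv_F T default)) (lnd_D2 T)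
    (D2_r T default) g

/-- the semisimple field -/
noncomputable def DH : Derivation ℂ (A T) (A T) := ⁅D1 T, D2 T⁆

lemma smul_DH_mem (g : A T) : g • DH T ∈ overshearLie (A T) :=
  smul_commutator_mem (one_smul_mem (smul_D2_mem T)) (smul_D1_mem T) g

lemma DH_0 : DH T (x T (inl 0)) = 0 := by
  rw [DH, Derivation.commutator_apply, D1_0, D2_0, map_neg, D1_1, D2_2]
  ring

lemma DH_1 : DH T (x T (inl 1)) = -2 * x T (inl 1) := by
  have e : (2 : A T) * x T (inl 0) = x T (inl 0) + x T (inl 0) := by ring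
  rw [DH, Derivation.commutator_apply, D2_1, D1_1, map_sub, Derivation.map_one_eq_zero, e,
    map_add, D2_0, map_zero]
  ring

lemma DH_2 : DH T (x T (inl 2)) = 2 * x T (inl 2) := by
  have e : (2 : A T) * x T (inl 0) = x T (inl 0) + x T (inl 0) := by ring
  rw [DH, Derivation.commutator_apply, D1_2, D2_2, map_sub, Derivation.map_one_eq_zero, e,
    map_add, D1_0, map_zero]
  ring

lemma DH_r (j) : DH T (x T (inr j)) = 0 := by
  rw [DH, Derivation.commutator_apply, D1_r, D2_r, map_zero, map_zero, sub_zero]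

lemma comm_D1_P (j) : ⁅D1 T, P T j⁆ = 0 := by
  refine der_ext (idx_cases T ?_ ?_ ?_ ?_)
  · change ⁅D1 T, P T j⁆ (x T (inl 0)) = 0
    rw [Derivation.commutator_apply, P_l, D1_0, P_l, map_zero, sub_zero]
  · change ⁅D1 T, P T j⁆ (x T (inl 1)) = 0
    have e : (2 : A T) * x T (inl 0) = x T (inl 0) + x T (inl 0) := by ring
    rw [Derivation.commutator_apply, P_l, D1_1, map_sub, Derivation.map_one_eq_zero, e, map_add,
      P_l, map_zero]
    simp
  · change ⁅D1 T, P T j⁆ (x T (inl 2)) = 0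
    rw [Derivation.commutator_apply, P_l, D1_2, map_zero, map_zero, sub_zero]
  · intro k
    change ⁅D1 T, P T j⁆ (x T (inr k)) = 0
    rw [Derivation.commutator_apply, P_r, D1_r, map_zero]
    split_ifs
    · rw [Derivation.map_one_eq_zero, sub_zero]
    · rw [map_zero, sub_zero]

lemma comm_D2_P (j) : ⁅D2 T, P T j⁆ = 0 := by
  refine der_ext (idx_cases T ?_ ?_ ?_ ?_)
  · change ⁅D2 T, P T j⁆ (x T (inl 0)) = 0
    rw [Derivation.commutator_apply, P_l, D2_0, map_neg, P_l, map_zero]
    simp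
  · change ⁅D2 T, P T j⁆ (x T (inl 1)) = 0
    rw [Derivation.commutator_apply, P_l, D2_1, map_zero, map_zero, sub_zero]
  · change ⁅D2 T, P T j⁆ (x T (inl 2)) = 0
    have e : (2 : A T) * x T (inl 0) = x T (inl 0) + x T (inl 0) := by ring
    rw [Derivation.commutator_apply, P_l, D2_2, map_sub, Derivation.map_one_eq_zero, e, map_add,
      P_l, map_zero]
    simp
  · intro k
    change ⁅D2 T, P T j⁆ (x T (inr k)) = 0
    rw [Derivation.commutator_apply, P_r, D2_r, map_zero]
    split_ifs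
    · rw [Derivation.map_one_eq_zero, sub_zero]
    · rw [map_zero, sub_zero]

lemma shear_P_mem (j) (h : A T) (hh : P T j h = 0) : h • P T j ∈ overshearLie (A T) :=
  mem_of_overshear (lnd_P T j) (by rw [hh, map_zero])

lemma mul_P_mem1 (j) (g h : A T) (hh : P T j h = 0) :
    (g * D1 T h) • P T j ∈ overshearLie (A T) :=
  smul_mul_mem (comm_D1_P T j) (smul_D1_mem T) g h (shear_P_mem T j h hh)

lemma smul_P_mem (j) (g : A T) : g • P T j ∈ overshearLie (A T) := by
  have h1 := mul_P_mem1 T j (g * (1 - 2 * x T (inl 0))) (x T (inl 1)) (P_l T j 1)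
  have h2 := mul_P_mem1 T j (g * (4 * x T (inl 1))) (x T (inl 0)) (P_l T j 0)
  rw [D1_1] at h1
  rw [D1_0] at h2
  have h3 := add_smul_mem h1 h2
  have e : g * (1 - 2 * x T (inl 0)) * (1 - 2 * x T (inl 0)) + g * (4 * x T (inl 1)) * x T (inl 2)
      = g := by
    have := rel T
    linear_combination g * this
  rwa [e] at h3

theorem lie_eq_top : overshearLie (A T) = ⊤ := by
  rw [eq_top_iff]
  intro D _
  set p := x T (inl 0) with hp
  set q := x T (inl 1) with hq
  set r := x T (inl 2) with hr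
  set e := D p with he
  set f := D q with hf
  set g := D r with hg
  have hrel : e * (1 - 2 * p) = f * r + g * q := by
    have h := congrArg D (rel' T)
    rw [map_zero, map_sub, map_sub, Derivation.leibniz, Derivation.leibniz_pow] at h
    simp only [smul_eq_mul, nsmul_eq_mul] at h
    push_cast at h
    linear_combination h
  have hrel2 := rel T
  refine decomp_mem (D1 := D1 T) (D2 := D2 T) (D3 := DH T) (P := P T)
    (k1 := 2 * e * q + f * (1 - 2 * p)) (k2 := g * (2 * p - 1) - 2 * e * r)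
    (k3 := g * q - f * r) (c := fun j => D (x T (inr j)))
    (smul_D1_mem T) (smul_D2_mem T) (smul_DH_mem T) (smul_P_mem T) (der_decomp ?_)
  refine idx_cases T ?_ ?_ ?_ ?_
  · have hs : ∑ j, D (x T (inr j)) * P T j (x T (inl 0)) = 0 :=
      Finset.sum_eq_zero fun j _ => by rw [P_l, mul_zero]
    change D (x T (inl 0)) = _ * D1 T (x T (inl 0)) + _ * D2 T (x T (inl 0))
      + _ * DH T (x T (inl 0)) + ∑ j, D (x T (inr j)) * P T j (x T (inl 0))
    rw [hs, D1_0, D2_0, DH_0, ← hp, ← hq, ← hr, ← he]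
    linear_combination (-e) * hrel2 + (1 - 2 * p) * hrel
  · have hs : ∑ j, D (x T (inr j)) * P T j (x T (inl 1)) = 0 :=
      Finset.sum_eq_zero fun j _ => by rw [P_l, mul_zero]
    change D (x T (inl 1)) = _ * D1 T (x T (inl 1)) + _ * D2 T (x T (inl 1))
      + _ * DH T (x T (inl 1)) + ∑ j, D (x T (inr j)) * P T j (x T (inl 1))
    rw [hs, D1_1, D2_1, DH_1, ← hp, ← hq, ← hf]
    linear_combination (-f) * hrel2 - 2 * q * hrel
  · have hs : ∑ j, D (x T (inr j)) * P T j (x T (inl 2)) = 0 :=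
      Finset.sum_eq_zero fun j _ => by rw [P_l, mul_zero]
    change D (x T (inl 2)) = _ * D1 T (x T (inl 2)) + _ * D2 T (x T (inl 2))
      + _ * DH T (x T (inl 2)) + ∑ j, D (x T (inr j)) * P T j (x T (inl 2))
    rw [hs, D1_2, D2_2, DH_2, ← hp, ← hr, ← hg]
    linear_combination (-g) * hrel2 - 2 * r * hrel
  · intro k
    have hs : ∑ j, D (x T (inr j)) * P T j (x T (inr k)) = D (x T (inr k)) := by
      rw [Finset.sum_eq_single k]
      · rw [P_r, if_pos rfl, mul_one]
      · intro j _ hj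
        rw [P_r, if_neg (Ne.symm hj), mul_zero]
      · intro h; exact absurd (Finset.mem_univ k) h
    change D (x T (inr k)) = _ * D1 T (x T (inr k)) + _ * D2 T (x T (inr k))
      + _ * DH T (x T (inr k)) + ∑ j, D (x T (inr j)) * P T j (x T (inr k))
    rw [hs, D1_r, D2_r, DH_r]
    ring

end AOSDP

section Smooth

variable (T : Type) [Fintype T] [DecidableEq T] [Inhabited T]

lemma formallySmooth_A : Algebra.FormallySmooth ℂ (A T) := by
  refine Algebra.FormallySmooth.of_comp_surjective ?_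
  intro B _ _ J hJ f
  have hsq : ∀ a b : B, a ∈ J → b ∈ J → a * b = 0 := by
    intro a b ha hb
    have : a * b ∈ J ^ 2 := by
      rw [pow_two]; exact Ideal.mul_mem_mul ha hb
    rw [hJ] at this
    simpa using this
  have hch : ∀ i : Idx T, ∃ b : B, Ideal.Quotient.mk J b = f (x T i) := fun i =>
    Ideal.Quotient.mk_surjective _
  choose b hb using hch
  set p := b (inl 0) with hp
  set q := b (inl 1) with hq
  set r := b (inl 2) with hr
  set ε := p - p ^ 2 - q * r with hε
  have hεJ : ε ∈ J := by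
    rw [← Ideal.Quotient.eq_zero_iff_mem, hε, map_sub, map_sub, map_mul, map_pow, hp, hq, hr,
      hb, hb, hb, ← map_pow, ← map_mul, ← map_sub, ← map_sub, rel', map_zero]
  have hεε : ε * ε = 0 := hsq _ _ hεJ hεJ
  set b' : Idx T → B := Sum.elim ![p - (1 - 2 * p) * ε, q + 2 * q * ε, r + 2 * r * ε]
    (fun j => b (inr j)) with hb'
  have hF : aeval b' (Fpol T) = 0 := by
    unfold Fpol
    simp only [map_sub, map_mul, map_pow, aeval_X, hb', Sum.elim_inl, Matrix.cons_val_zero,
      Matrix.cons_val_one, Matrix.cons_val]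
    have h1 : ε = p - p ^ 2 - q * r := hε
    have h2 : p - (1 - 2 * p) * ε - (p - (1 - 2 * p) * ε) ^ 2 - (q + 2 * q * ε) * (r + 2 * r * ε)
        = (p - p ^ 2 - q * r) - ε * (1 - 4 * (p - p ^ 2 - q * r))
          - ((1 - 2 * p) ^ 2 + 4 * q * r) * (ε * ε) := by ring
    rw [h2, ← h1, hεε]
    linear_combination 4 * hεε
  have hker : ∀ y ∈ I T, aeval b' y = 0 := by
    intro y hy
    obtain ⟨c, rfl⟩ := Ideal.mem_span_singleton'.1 hy
    rw [map_mul, hF, mul_zero]
  refine ⟨Ideal.Quotient.liftₐ (I T) (aeval b') hker, ?_⟩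
  refine Ideal.Quotient.algHom_ext _ (MvPolynomial.algHom_ext ?_)
  have hmk : ∀ y : B, (Ideal.Quotient.mk J) (y * ε) = 0 := fun y =>
    Ideal.Quotient.eq_zero_iff_mem.2 (Ideal.mul_mem_left _ _ hεJ)
  intro i
  have hl : ((Ideal.Quotient.mkₐ ℂ J).comp (Ideal.Quotient.liftₐ (I T) (aeval b') hker)).comp
      (Ideal.Quotient.mkₐ ℂ (I T)) (X i) = Ideal.Quotient.mk J (b' i) := by
    change Ideal.Quotient.mk J (aeval b' (X i)) = _
    rw [aeval_X]
  have hr' : (f.comp (Ideal.Quotient.mkₐ ℂ (I T))) (X i) = f (x T i) := rfl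
  rw [hl, hr']
  revert i
  refine idx_cases T ?_ ?_ ?_ ?_
  · intro _ _
    rw [← hb, ← hp, hb']
    simp only [Sum.elim_inl, Matrix.cons_val_zero]
    rw [map_sub, hmk, sub_zero]
  · intro _ _
    rw [← hb, ← hq, hb']
    simp only [Sum.elim_inl, Matrix.cons_val_one, Matrix.cons_val_zero]
    rw [map_add, hmk, add_zero]
  · intro _ _
    rw [← hb, ← hr, hb']
    simp only [Sum.elim_inl, Matrix.cons_val]
    rw [map_add, hmk, add_zero]
  · intro j _ _
    rw [← hb, hb']
    simp only [Sum.elim_inr]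

lemma smooth_A : Algebra.Smooth ℂ (A T) where
  formallySmooth := formallySmooth_A T
  finitePresentation :=
    Algebra.FinitePresentation.quotient ⟨{Fpol T}, by simp⟩

lemma isDomain_A : IsDomain (A T) := Ideal.Quotient.isDomain (I T)

lemma manifold_Z : IsAffineManifold (Zset T) := by
  refine ⟨⟨{Fpol T}, ?_⟩, ?_, ?_⟩
  · ext y
    simp only [Zset, Set.mem_ofPred_eq, Set.mem_singleton_iff, forall_eq, Fpol, map_sub, map_mul,
      map_pow, eval_X]
    constructor
    · intro h; linear_combination h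
    · intro h; linear_combination h
  · have : ∀ J : Ideal (MvPolynomial (Idx T) ℂ), J = I T → IsDomain (MvPolynomial (Idx T) ℂ ⧸ J) := by
      rintro J rfl; exact isDomain_A T
    exact this _ (vanishing_Z T)
  · have : ∀ J : Ideal (MvPolynomial (Idx T) ℂ), J = I T →
        Algebra.Smooth ℂ (MvPolynomial (Idx T) ℂ ⧸ J) := by
      rintro J rfl; exact smooth_A T
    exact this _ (vanishing_Z T)

lemma aosdp_Z : HasAOSDP (Zset T) := by
  have : ∀ J : Ideal (MvPolynomial (Idx T) ℂ), J = I T →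
      overshearLie (MvPolynomial (Idx T) ℂ ⧸ J) = ⊤ := by
    rintro J rfl; exact lie_eq_top T
  exact this _ (vanishing_Z T)

end Smooth


end Pool.Agent.Lib.MP_563419_an.Ins
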