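import Mathlib

/-!
The spaces `Z = Q × ℂ^(k+4)`, `X`, `S` and the notion of a real-analytic isotopy.
-/

set_option autoImplicit false

open Sum
open scoped ContDiff

namespace Pool.Agent.Lib.MP_563419_an.Iso

/-- Index set of the coordinates `(p, q, r; x, y; z_0, ..., z_(k+1))` of `ℂ^(3+2+(k+2))`:
`p`, `q`, `r` are `inl 0`, `inl 1`, `inl 2`; `x`, `y` are `inr (inl 0)`, `inr (inl 1)`; `z_j` is
`inr (inr j)`. -/
abbrev Idx (k : ℕ) : Type := Fin 3 ⊕ (Fin 2 ⊕ Fin (k + 2))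

/-- `Z = Q × ℂ^(k+4)`, with `Q = {p (1 - p) = q r} ⊆ ℂ³`. -/
def Zset (k : ℕ) : Set (Idx k → ℂ) :=
  {u | u (inl 0) * (1 - u (inl 0)) = u (inl 1) * u (inl 2)}

/-- The hypersurface `X = {x y = 1}` of `Z`. -/
def Xset (k : ℕ) : Set (Idx k → ℂ) :=
  {u | u (inl 0) * (1 - u (inl 0)) = u (inl 1) * u (inl 2) ∧ u (inr (inl 0)) * u (inr (inl 1)) = 1}

/-- The coordinates `q`, `r`, `z_0`, ..., `z_(k+1)`. -/
def IsFree (k : ℕ) (i : Idx k) : Prop := i ≠ inl 0 ∧ i ≠ inr (inl 0) ∧ i ≠ inr (inl 1)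

/-- The surface `S`: `p = 0`, `a b = 0` and `a (x y - 1) = 0` for all different coordinates `a`,
`b` among `q`, `r`, `z_0`, ..., `z_(k+1)`. -/
def Sset (k : ℕ) : Set (Idx k → ℂ) :=
  {u | u (inl 0) = 0 ∧ (∀ i j, IsFree k i → IsFree k j → i ≠ j → u i * u j = 0) ∧
    ∀ i, IsFree k i → u i * (u (inr (inl 0)) * u (inr (inl 1)) - 1) = 0}

/-- `H` is a real-analytic isotopy of `Z`: the maps `H t` and their inverses, `t ∈ ℝ`, are the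
restrictions of real-analytic maps `ℝ × ℂ^σ → ℂ^σ`. -/
def IsAnalyticIsotopy {σ : Type} [Fintype σ] {Z : Set (σ → ℂ)} (H : ℝ → Z ≃ Z) : Prop :=
  ∃ F G : ℝ × (σ → ℂ) → (σ → ℂ), ContDiff ℝ ω F ∧ ContDiff ℝ ω G ∧
    ∀ (t : ℝ) (z : Z), ((H t z : Z) : σ → ℂ) = F (t, z) ∧
      (((H t).symm z : Z) : σ → ℂ) = G (t, z)

end Pool.Agent.Lib.MP_563419_an.Iso
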