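import Mathlib
import Pool.Agent.Lib.MP_563419_an.Defs
import Pool.Agent.Lib.MP_563419_an.Ins.Spaces
import Pool.Agent.Lib.MP_563419_an.Ins.Quadric

/-! The algebraic part. -/

set_option autoImplicit false

open MvPolynomial Sum Pool.Agent.Lib.MP_563419_an ComplexConjugate
open scoped ContDiff

namespace Pool.Agent.Lib.MP_563419_an.Iso

variable (k : ℕ)

section algebraic

lemma X_sub_Z : Xset k ⊆ Zset k := fun _ hu => hu.1

lemma free_q : IsFree k (inl 1) := ⟨by simp, by simp, by simp⟩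

lemma free_r : IsFree k (inl 2) := ⟨by simp, by simp, by simp⟩

lemma free_z (j : Fin (k + 2)) : IsFree k (inr (inr j)) := ⟨by simp, by simp, by simp⟩

lemma S_sub_Z : Sset k ⊆ Zset k := by
  intro u hu
  obtain ⟨h0, h1, -⟩ := hu
  have h2 := h1 (inl 1) (inl 2) (free_q k) (free_r k) (by simp)
  change u (inl 0) * (1 - u (inl 0)) = u (inl 1) * u (inl 2)
  rw [h0, h2]
  ring

lemma manifold_Z : IsAffineManifold (Zset k) := Ins.manifold_Z (Fin 2 ⊕ Fin (k + 2))

lemma aosdp_Z : HasAOSDP (Zset k) := Ins.aosdp_Z (Fin 2 ⊕ Fin (k + 2))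

lemma algebraic_X : IsAlgebraicSet (Xset k) := by
  refine ⟨{X (inl 0) - X (inl 0) ^ 2 - X (inl 1) * X (inl 2),
    X (inr (inl 0)) * X (inr (inl 1)) - 1}, ?_⟩
  ext u
  constructor
  · rintro ⟨h1, h2⟩ f hf
    rcases hf with hf | hf
    · rw [hf]
      simp only [map_sub, map_mul, map_pow, eval_X]
      linear_combination h1
    · rw [hf]
      simp only [map_sub, map_mul, map_one, eval_X]
      linear_combination h2
  · intro h
    have h1 := h _ (Or.inl rfl)
    have h2 := h _ (Or.inr rfl)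
    simp only [map_sub, map_mul, map_pow, map_one, eval_X] at h1 h2
    exact ⟨by linear_combination h1, by linear_combination h2⟩

lemma algebraic_S : IsAlgebraicSet (Sset k) := by
  refine ⟨{f | f = X (inl 0) ∨ (∃ i j, IsFree k i ∧ IsFree k j ∧ i ≠ j ∧ f = X i * X j) ∨
    ∃ i, IsFree k i ∧ f = X i * (X (inr (inl 0)) * X (inr (inl 1)) - 1)}, ?_⟩
  ext u
  constructor
  · rintro ⟨h0, h1, h2⟩ f hf
    rcases hf with rfl | ⟨i, j, hi, hj, hij, rfl⟩ | ⟨i, hi, rfl⟩
    · rw [eval_X]
      exact h0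
    · rw [map_mul, eval_X, eval_X]
      exact h1 i j hi hj hij
    · simp only [map_mul, map_sub, map_one, eval_X]
      exact h2 i hi
  · intro h
    refine ⟨?_, fun i j hi hj hij => ?_, fun i hi => ?_⟩
    · have := h _ (Or.inl rfl)
      rwa [eval_X] at this
    · have := h _ (Or.inr (Or.inl ⟨i, j, hi, hj, hij, rfl⟩))
      rwa [map_mul, eval_X, eval_X] at this
    · have := h _ (Or.inr (Or.inr ⟨i, hi, rfl⟩))
      simpa only [map_mul, map_sub, map_one, eval_X] using this

/-- `(p, q, r; x, y; z_0, z_1, ...) ↦ (p, q, r; x, y; a z_0, z_1, ...)` -/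
def scale (a : ℂ) (u : Idx k → ℂ) : Idx k → ℂ :=
  fun i => if i = inr (inr 0) then a * u i else u i

lemma scale_0 (a : ℂ) (u : Idx k → ℂ) : scale k a u (inr (inr 0)) = a * u (inr (inr 0)) := by
  simp [scale]

lemma scale_ne (a : ℂ) (u : Idx k → ℂ) {i : Idx k} (h : i ≠ inr (inr 0)) :
    scale k a u i = u i := by
  simp [scale, h]

lemma scale_scale {a b : ℂ} {u : Idx k → ℂ} (h : a * (b * u (inr (inr 0))) = u (inr (inr 0))) :
    scale k a (scale k b u) = u := by
  funext i
  by_cases hi : i = inr (inr 0)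
  · subst hi
    rw [scale_0, scale_0, h]
  · rw [scale_ne k _ _ hi, scale_ne k _ _ hi]

lemma scale_mem_X (a : ℂ) {u : Idx k → ℂ} (hu : u ∈ Xset k) : scale k a u ∈ Xset k := by
  change scale k a u (inl 0) * (1 - scale k a u (inl 0)) = scale k a u (inl 1) * scale k a u (inl 2)
    ∧ scale k a u (inr (inl 0)) * scale k a u (inr (inl 1)) = 1
  rw [scale_ne k a u (by simp), scale_ne k a u (by simp), scale_ne k a u (by simp),
    scale_ne k a u (by simp), scale_ne k a u (by simp)]
  exact hu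

lemma scale_mem_S (a : ℂ) {u : Idx k → ℂ} (hu : u ∈ Sset k) : scale k a u ∈ Sset k := by
  obtain ⟨h0, h1, h2⟩ := hu
  have hs : ∀ i, ∃ c, scale k a u i = c * u i := by
    intro i
    by_cases hi : i = inr (inr 0)
    · subst hi
      exact ⟨a, scale_0 k a u⟩
    · exact ⟨1, by rw [scale_ne k a u hi, one_mul]⟩
  refine ⟨?_, fun i j hi hj hij => ?_, fun i hi => ?_⟩
  · rw [scale_ne k a u (by simp)]
    exact h0
  · obtain ⟨c, hc⟩ := hs i
    obtain ⟨d, hd⟩ := hs j
    rw [hc, hd]
    linear_combination c * d * h1 i j hi hj hij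
  · obtain ⟨c, hc⟩ := hs i
    rw [hc, scale_ne k a u (i := inr (inl 0)) (by simp), scale_ne k a u (i := inr (inl 1)) (by simp)]
    linear_combination c * h2 i hi

/-- the automorphism of `X` -/
def phi : Xset k ≃ Xset k where
  toFun u := ⟨scale k ((u : Idx k → ℂ) (inr (inl 0)) ^ 2) u, scale_mem_X k _ u.2⟩
  invFun u := ⟨scale k ((u : Idx k → ℂ) (inr (inl 1)) ^ 2) u, scale_mem_X k _ u.2⟩
  left_inv u := by
    apply Subtype.ext
    have h := u.2.2
    simp only [scale_ne k _ _ (show (inr (inl 1) : Idx k) ≠ inr (inr 0) by simp)]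
    refine scale_scale k ?_
    set x := (u : Idx k → ℂ) (inr (inl 0))
    set y := (u : Idx k → ℂ) (inr (inl 1))
    linear_combination ((x * y + 1) * (u : Idx k → ℂ) (inr (inr 0))) * h
  right_inv u := by
    apply Subtype.ext
    have h := u.2.2
    simp only [scale_ne k _ _ (show (inr (inl 0) : Idx k) ≠ inr (inr 0) by simp)]
    refine scale_scale k ?_
    set x := (u : Idx k → ℂ) (inr (inl 0))
    set y := (u : Idx k → ℂ) (inr (inl 1))
    linear_combination ((x * y + 1) * (u : Idx k → ℂ) (inr (inr 0))) * h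

/-- the automorphism of `S` -/
def psi : Sset k ≃ Sset k where
  toFun u := ⟨scale k ((u : Idx k → ℂ) (inr (inl 0)) ^ 2) u, scale_mem_S k _ u.2⟩
  invFun u := ⟨scale k ((u : Idx k → ℂ) (inr (inl 1)) ^ 2) u, scale_mem_S k _ u.2⟩
  left_inv u := by
    apply Subtype.ext
    have h := u.2.2.2 (inr (inr 0)) (free_z k 0)
    simp only [scale_ne k _ _ (show (inr (inl 1) : Idx k) ≠ inr (inr 0) by simp)]
    refine scale_scale k ?_
    set x := (u : Idx k → ℂ) (inr (inl 0))
    set y := (u : Idx k → ℂ) (inr (inl 1))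
    linear_combination (x * y + 1) * h
  right_inv u := by
    apply Subtype.ext
    have h := u.2.2.2 (inr (inr 0)) (free_z k 0)
    simp only [scale_ne k _ _ (show (inr (inl 0) : Idx k) ≠ inr (inr 0) by simp)]
    refine scale_scale k ?_
    set x := (u : Idx k → ℂ) (inr (inl 0))
    set y := (u : Idx k → ℂ) (inr (inl 1))
    linear_combination (x * y + 1) * h

lemma regular_scale (A : Set (Idx k → ℂ)) (a : Idx k) (f : A → (Idx k → ℂ))
    (h : ∀ u : A, f u = scale k ((u : Idx k → ℂ) a ^ 2) u) : IsRegularMap f := by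
  refine ⟨fun i => if i = inr (inr 0) then X a ^ 2 * X i else X i, ?_⟩
  intro u i
  rw [h u]
  by_cases hi : i = inr (inr 0) <;> simp [scale, hi]

lemma phi_alg : IsAlgebraicIso (phi k) :=
  ⟨regular_scale k _ (inr (inl 0)) _ fun _ => rfl, regular_scale k _ (inr (inl 1)) _ fun _ => rfl⟩

lemma psi_alg : IsAlgebraicIso (psi k) :=
  ⟨regular_scale k _ (inr (inl 0)) _ fun _ => rfl, regular_scale k _ (inr (inl 1)) _ fun _ => rfl⟩

end algebraic

end Pool.Agent.Lib.MP_563419_an.Iso
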