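import Mathlib

/-!
The maps `q ↦ b q b` of the quaternions `q = z₀ + z₁ j`, `b = α + β j`; an explicit real-analytic
isotopy of `ℂ² × ℂ²` which starts at the identity and ends at a map which is
`(x, y; z₀, z₁) ↦ (x, y; x² z₀, z₁)` on `x y = 1`.
-/

open ComplexConjugate
open scoped ContDiff

namespace Pool.Agent.Lib.MP_563419_an.Ins

/-- the first coordinate of `b q b` -/
noncomputable def M1 (α β a b : ℂ) : ℂ :=
  (α * a - β * conj b) * α - (α * b + β * conj a) * conj β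

/-- the second coordinate of `b q b` -/
noncomputable def M2 (α β a b : ℂ) : ℂ :=
  (α * a - β * conj b) * β + (α * b + β * conj a) * conj α

lemma M1_scale {c : ℂ} (hc : conj c = c) (α β a b : ℂ) :
    M1 (c * α) (c * β) a b = c ^ 2 * M1 α β a b := by
  unfold M1
  simp only [map_mul, hc]
  ring

lemma M2_scale {c : ℂ} (hc : conj c = c) (α β a b : ℂ) :
    M2 (c * α) (c * β) a b = c ^ 2 * M2 α β a b := by
  unfold M2
  simp only [map_mul, hc]
  ring

lemma M1_inv (α β a b : ℂ) :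
    M1 (conj α) (-β) (M1 α β a b) (M2 α β a b) = (α * conj α + β * conj β) ^ 2 * a := by
  unfold M1 M2
  simp only [map_mul, map_add, map_sub, map_neg, Complex.conj_conj]
  ring

lemma M2_inv (α β a b : ℂ) :
    M2 (conj α) (-β) (M1 α β a b) (M2 α β a b) = (α * conj α + β * conj β) ^ 2 * b := by
  unfold M1 M2
  simp only [map_mul, map_add, map_sub, Complex.conj_conj]
  ring

lemma M1_inv' (α β a b : ℂ) :
    M1 α β (M1 (conj α) (-β) a b) (M2 (conj α) (-β) a b) = (α * conj α + β * conj β) ^ 2 * a := by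
  unfold M1 M2
  simp only [map_mul, map_add, map_sub, map_neg, Complex.conj_conj]
  ring

lemma M2_inv' (α β a b : ℂ) :
    M2 α β (M1 (conj α) (-β) a b) (M2 (conj α) (-β) a b) = (α * conj α + β * conj β) ^ 2 * b := by
  unfold M1 M2
  simp only [map_mul, map_add, map_sub, map_neg, Complex.conj_conj]
  ring

/-- the norm of `b` -/
noncomputable def NN (α β : ℂ) : ℂ := α * conj α + β * conj β

lemma NN_eq (α β : ℂ) : NN α β = ((Complex.normSq α + Complex.normSq β : ℝ) : ℂ) := by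
  unfold NN
  rw [Complex.mul_conj, Complex.mul_conj]
  push_cast
  rfl

lemma NN_conj (α β : ℂ) : conj (NN α β) = NN α β := by
  rw [NN_eq, Complex.conj_ofReal]

lemma NN_ne {α β : ℂ} (h : α ≠ 0 ∨ β ≠ 0) : NN α β ≠ 0 := by
  rw [NN_eq]
  have h1 := Complex.normSq_nonneg α
  have h2 := Complex.normSq_nonneg β
  have h3 : 0 < Complex.normSq α + Complex.normSq β := by
    rcases h with h | h
    · have := Complex.normSq_pos.2 h
      linarith
    · have := Complex.normSq_pos.2 h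
      linarith
  exact_mod_cast h3.ne'

section path

/-- the path of the numbers `α` -/
noncomputable def al (t : ℝ) (x y : ℂ) : ℂ :=
  (Real.sin (Real.pi / 2 * t) : ℂ) * (t * x) + (Real.cos (Real.pi / 2 * t) : ℂ) * (1 - t ^ 2 * (x * y))

/-- the path of the numbers `β` -/
noncomputable def be (t : ℝ) (x y : ℂ) : ℂ :=
  (Real.sin (Real.pi / 2 * t) : ℂ) * (1 - t ^ 2 * (x * y)) - (Real.cos (Real.pi / 2 * t) : ℂ) * (t * x)

lemma al_zero (x y : ℂ) : al 0 x y = 1 := by simp [al]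

lemma be_zero (x y : ℂ) : be 0 x y = 0 := by simp [be]

lemma al_one (x y : ℂ) : al 1 x y = x := by simp [al]

lemma be_one (x y : ℂ) : be 1 x y = 1 - x * y := by simp [be]

lemma albe_ne (t : ℝ) (x y : ℂ) : al t x y ≠ 0 ∨ be t x y ≠ 0 := by
  by_contra hn
  push Not at hn
  obtain ⟨h1, h2⟩ := hn
  unfold al at h1
  unfold be at h2
  set s := Real.sin (Real.pi / 2 * t) with hs
  set c := Real.cos (Real.pi / 2 * t) with hc
  have h3 : (s : ℂ) ^ 2 + (c : ℂ) ^ 2 = 1 := by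
    have := Real.sin_sq_add_cos_sq (Real.pi / 2 * t)
    rw [← hs, ← hc] at this
    exact_mod_cast this
  have h4 : (t : ℂ) * x = 0 := by
    linear_combination (s : ℂ) * h1 - (c : ℂ) * h2 - (t * x) * h3
  have h5 : (1 : ℂ) - t ^ 2 * (x * y) = 0 := by
    linear_combination (c : ℂ) * h1 + (s : ℂ) * h2 - (1 - t ^ 2 * (x * y)) * h3
  have h6 : (1 : ℂ) = 0 := by
    linear_combination h5 + t * y * h4
  exact one_ne_zero h6

/-- the numerator of the positive factor -/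
noncomputable def rnum (t : ℝ) (x y : ℂ) : ℂ :=
  (Real.cos (Real.pi / 2 * t) : ℂ) ^ 2 * (1 + x * conj x) +
    (Real.sin (Real.pi / 2 * t) : ℂ) ^ 2 * (1 + y * conj y)

lemma one_add_ne (x : ℂ) : 1 + x * conj x ≠ 0 := by
  rw [Complex.mul_conj]
  have h1 := Complex.normSq_nonneg x
  have h2 : 0 < 1 + Complex.normSq x := by linarith
  exact_mod_cast h2.ne'

lemma rnum_ne (t : ℝ) (x y : ℂ) : rnum t x y ≠ 0 := by
  unfold rnum
  rw [Complex.mul_conj, Complex.mul_conj]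
  have h1 := Complex.normSq_nonneg x
  have h2 := Complex.normSq_nonneg y
  have h3 := Real.sin_sq_add_cos_sq (Real.pi / 2 * t)
  have h4 := sq_nonneg (Real.sin (Real.pi / 2 * t))
  have h5 := sq_nonneg (Real.cos (Real.pi / 2 * t))
  have h6 : 0 < Real.cos (Real.pi / 2 * t) ^ 2 * (1 + Complex.normSq x) +
      Real.sin (Real.pi / 2 * t) ^ 2 * (1 + Complex.normSq y) := by
    nlinarith [mul_nonneg h4 h2, mul_nonneg h5 h1]
  exact_mod_cast h6.ne'

/-- the positive factor -/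
noncomputable def rho (t : ℝ) (x y : ℂ) : ℂ := rnum t x y * (1 + x * conj x)⁻¹

/-- its inverse -/
noncomputable def rhi (t : ℝ) (x y : ℂ) : ℂ := (1 + x * conj x) * (rnum t x y)⁻¹

lemma rho_rhi (t : ℝ) (x y : ℂ) : rho t x y * rhi t x y = 1 := by
  unfold rho rhi
  have h1 := one_add_ne x
  have h2 := rnum_ne t x y
  field_simp

lemma rho_zero (x y : ℂ) : rho 0 x y = 1 := by
  unfold rho rnum
  have h1 := one_add_ne x
  simp [h1]

lemma rho_one {x y : ℂ} (h : x * y = 1) : rho 1 x y * (x * conj x) = 1 := by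
  unfold rho rnum
  have h1 := one_add_ne x
  have h2 : conj x * conj y = 1 := by rw [← map_mul, h, map_one]
  have e1 : Real.cos (Real.pi / 2 * 1) = 0 := by simp
  have e2 : Real.sin (Real.pi / 2 * 1) = 1 := by simp
  rw [e1, e2]
  field_simp
  push_cast
  linear_combination (x * y) * h2 + h

/-- the isotopy, first coordinate -/
noncomputable def h1 (t : ℝ) (x y a b : ℂ) : ℂ := M1 (al t x y) (be t x y) a b

/-- the isotopy, second coordinate -/
noncomputable def h2 (t : ℝ) (x y a b : ℂ) : ℂ := rho t x y * M2 (al t x y) (be t x y) a b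

/-- the inverse, first coordinate -/
noncomputable def g1 (t : ℝ) (x y a b : ℂ) : ℂ :=
  (NN (al t x y) (be t x y))⁻¹ ^ 2 * M1 (conj (al t x y)) (-be t x y) a (rhi t x y * b)

/-- the inverse, second coordinate -/
noncomputable def g2 (t : ℝ) (x y a b : ℂ) : ℂ :=
  (NN (al t x y) (be t x y))⁻¹ ^ 2 * M2 (conj (al t x y)) (-be t x y) a (rhi t x y * b)

lemma hg1 (t : ℝ) (x y a b : ℂ) : g1 t x y (h1 t x y a b) (h2 t x y a b) = a := by
  unfold g1 h1 h2
  have e : rhi t x y * (rho t x y * M2 (al t x y) (be t x y) a b) =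
      M2 (al t x y) (be t x y) a b := by
    rw [← mul_assoc, mul_comm (rhi t x y), rho_rhi, one_mul]
  rw [e, M1_inv]
  have h3 : NN (al t x y) (be t x y) ≠ 0 := NN_ne (albe_ne t x y)
  change (NN (al t x y) (be t x y))⁻¹ ^ 2 * (NN (al t x y) (be t x y) ^ 2 * a) = a
  rw [← mul_assoc, ← mul_pow, inv_mul_cancel₀ h3, one_pow, one_mul]

lemma hg2 (t : ℝ) (x y a b : ℂ) : g2 t x y (h1 t x y a b) (h2 t x y a b) = b := by
  unfold g2 h1 h2
  have e : rhi t x y * (rho t x y * M2 (al t x y) (be t x y) a b) =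
      M2 (al t x y) (be t x y) a b := by
    rw [← mul_assoc, mul_comm (rhi t x y), rho_rhi, one_mul]
  rw [e, M2_inv]
  have h3 : NN (al t x y) (be t x y) ≠ 0 := NN_ne (albe_ne t x y)
  change (NN (al t x y) (be t x y))⁻¹ ^ 2 * (NN (al t x y) (be t x y) ^ 2 * b) = b
  rw [← mul_assoc, ← mul_pow, inv_mul_cancel₀ h3, one_pow, one_mul]

lemma M_lin (α β c a b : ℂ) (hc : conj c = c) :
    M1 α β (c * a) (c * b) = c * M1 α β a b ∧ M2 α β (c * a) (c * b) = c * M2 α β a b := by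
  unfold M1 M2
  simp only [map_mul, hc]
  constructor <;> ring

lemma gh1 (t : ℝ) (x y a b : ℂ) : h1 t x y (g1 t x y a b) (g2 t x y a b) = a := by
  unfold h1 g1 g2
  have h3 : NN (al t x y) (be t x y) ≠ 0 := NN_ne (albe_ne t x y)
  have h4 : conj ((NN (al t x y) (be t x y))⁻¹ ^ 2) = (NN (al t x y) (be t x y))⁻¹ ^ 2 := by
    rw [map_pow, map_inv₀, NN_conj]
  rw [(M_lin _ _ _ _ _ h4).1, M1_inv']
  change (NN (al t x y) (be t x y))⁻¹ ^ 2 * (NN (al t x y) (be t x y) ^ 2 * a) = a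
  rw [← mul_assoc, ← mul_pow, inv_mul_cancel₀ h3, one_pow, one_mul]

lemma gh2 (t : ℝ) (x y a b : ℂ) : h2 t x y (g1 t x y a b) (g2 t x y a b) = b := by
  unfold h2 g1 g2
  have h3 : NN (al t x y) (be t x y) ≠ 0 := NN_ne (albe_ne t x y)
  have h4 : conj ((NN (al t x y) (be t x y))⁻¹ ^ 2) = (NN (al t x y) (be t x y))⁻¹ ^ 2 := by
    rw [map_pow, map_inv₀, NN_conj]
  rw [(M_lin _ _ _ _ _ h4).2, M2_inv']
  change rho t x y * ((NN (al t x y) (be t x y))⁻¹ ^ 2 *
    (NN (al t x y) (be t x y) ^ 2 * (rhi t x y * b))) = b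
  rw [← mul_assoc ((NN (al t x y) (be t x y))⁻¹ ^ 2), ← mul_pow, inv_mul_cancel₀ h3, one_pow,
    one_mul, ← mul_assoc, rho_rhi, one_mul]

lemma h1_zero (x y a b : ℂ) : h1 0 x y a b = a := by
  unfold h1
  rw [al_zero, be_zero]
  simp [M1]

lemma h2_zero (x y a b : ℂ) : h2 0 x y a b = b := by
  unfold h2
  rw [al_zero, be_zero, rho_zero]
  simp [M2]

lemma h1_one {x y : ℂ} (h : x * y = 1) (a b : ℂ) : h1 1 x y a b = x ^ 2 * a := by
  unfold h1
  rw [al_one, be_one, h, sub_self]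
  simp [M1]
  ring

lemma h2_one {x y : ℂ} (h : x * y = 1) (a b : ℂ) : h2 1 x y a b = b := by
  unfold h2
  rw [al_one, be_one, h, sub_self]
  have h3 := rho_one h
  have e : M2 x 0 a b = (x * conj x) * b := by
    simp [M2]
    ring
  rw [e, ← mul_assoc, h3, one_mul]

lemma h1_fix (t : ℝ) (x y : ℂ) : h1 t x y 0 0 = 0 := by simp [h1, M1]

lemma h2_fix (t : ℝ) (x y : ℂ) : h2 t x y 0 0 = 0 := by simp [h2, M2]

section smooth

variable {E : Type} [NormedAddCommGroup E] [NormedSpace ℝ E]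

lemma cd_conj {f : E → ℂ} (hf : ContDiff ℝ ω f) : ContDiff ℝ ω fun p => conj (f p) :=
  Complex.conjCLE.contDiff.comp hf

lemma cd_real {f : E → ℝ} (hf : ContDiff ℝ ω f) : ContDiff ℝ ω fun p => ((f p : ℝ) : ℂ) :=
  Complex.ofRealCLM.contDiff.comp hf

lemma cd_sin {f : E → ℝ} (hf : ContDiff ℝ ω f) :
    ContDiff ℝ ω fun p => (Real.sin (Real.pi / 2 * f p) : ℂ) :=
  cd_real (Real.contDiff_sin.comp (contDiff_const.mul hf))

lemma cd_cos {f : E → ℝ} (hf : ContDiff ℝ ω f) :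
    ContDiff ℝ ω fun p => (Real.cos (Real.pi / 2 * f p) : ℂ) :=
  cd_real (Real.contDiff_cos.comp (contDiff_const.mul hf))

variable {t : E → ℝ} {x y a b : E → ℂ}

lemma cd_al (ht : ContDiff ℝ ω t) (hx : ContDiff ℝ ω x) (hy : ContDiff ℝ ω y) :
    ContDiff ℝ ω fun p => al (t p) (x p) (y p) :=
  ((cd_sin ht).mul ((cd_real ht).mul hx)).add
    ((cd_cos ht).mul (contDiff_const.sub (((cd_real ht).pow 2).mul (hx.mul hy))))

lemma cd_be (ht : ContDiff ℝ ω t) (hx : ContDiff ℝ ω x) (hy : ContDiff ℝ ω y) :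
    ContDiff ℝ ω fun p => be (t p) (x p) (y p) :=
  ((cd_sin ht).mul (contDiff_const.sub (((cd_real ht).pow 2).mul (hx.mul hy)))).sub
    ((cd_cos ht).mul ((cd_real ht).mul hx))

lemma cd_M1 {α β : E → ℂ} (hα : ContDiff ℝ ω α) (hβ : ContDiff ℝ ω β) (ha : ContDiff ℝ ω a)
    (hb : ContDiff ℝ ω b) : ContDiff ℝ ω fun p => M1 (α p) (β p) (a p) (b p) :=
  (((hα.mul ha).sub (hβ.mul (cd_conj hb))).mul hα).sub
    (((hα.mul hb).add (hβ.mul (cd_conj ha))).mul (cd_conj hβ))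

lemma cd_M2 {α β : E → ℂ} (hα : ContDiff ℝ ω α) (hβ : ContDiff ℝ ω β) (ha : ContDiff ℝ ω a)
    (hb : ContDiff ℝ ω b) : ContDiff ℝ ω fun p => M2 (α p) (β p) (a p) (b p) :=
  (((hα.mul ha).sub (hβ.mul (cd_conj hb))).mul hβ).add
    (((hα.mul hb).add (hβ.mul (cd_conj ha))).mul (cd_conj hα))

lemma cd_NN {α β : E → ℂ} (hα : ContDiff ℝ ω α) (hβ : ContDiff ℝ ω β) :
    ContDiff ℝ ω fun p => NN (α p) (β p) :=
  (hα.mul (cd_conj hα)).add (hβ.mul (cd_conj hβ))

lemma cd_rnum (ht : ContDiff ℝ ω t) (hx : ContDiff ℝ ω x) (hy : ContDiff ℝ ω y) :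
    ContDiff ℝ ω fun p => rnum (t p) (x p) (y p) :=
  (((cd_cos ht).pow 2).mul (contDiff_const.add (hx.mul (cd_conj hx)))).add
    (((cd_sin ht).pow 2).mul (contDiff_const.add (hy.mul (cd_conj hy))))

lemma cd_rho (ht : ContDiff ℝ ω t) (hx : ContDiff ℝ ω x) (hy : ContDiff ℝ ω y) :
    ContDiff ℝ ω fun p => rho (t p) (x p) (y p) :=
  (cd_rnum ht hx hy).mul ((contDiff_const.add (hx.mul (cd_conj hx))).inv fun _ => one_add_ne _)

lemma cd_rhi (ht : ContDiff ℝ ω t) (hx : ContDiff ℝ ω x) (hy : ContDiff ℝ ω y) :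
    ContDiff ℝ ω fun p => rhi (t p) (x p) (y p) :=
  (contDiff_const.add (hx.mul (cd_conj hx))).mul ((cd_rnum ht hx hy).inv fun _ => rnum_ne _ _ _)

lemma cd_h1 (ht : ContDiff ℝ ω t) (hx : ContDiff ℝ ω x) (hy : ContDiff ℝ ω y)
    (ha : ContDiff ℝ ω a) (hb : ContDiff ℝ ω b) :
    ContDiff ℝ ω fun p => h1 (t p) (x p) (y p) (a p) (b p) :=
  cd_M1 (cd_al ht hx hy) (cd_be ht hx hy) ha hb

lemma cd_h2 (ht : ContDiff ℝ ω t) (hx : ContDiff ℝ ω x) (hy : ContDiff ℝ ω y)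
    (ha : ContDiff ℝ ω a) (hb : ContDiff ℝ ω b) :
    ContDiff ℝ ω fun p => h2 (t p) (x p) (y p) (a p) (b p) :=
  (cd_rho ht hx hy).mul (cd_M2 (cd_al ht hx hy) (cd_be ht hx hy) ha hb)

lemma cd_g1 (ht : ContDiff ℝ ω t) (hx : ContDiff ℝ ω x) (hy : ContDiff ℝ ω y)
    (ha : ContDiff ℝ ω a) (hb : ContDiff ℝ ω b) :
    ContDiff ℝ ω fun p => g1 (t p) (x p) (y p) (a p) (b p) :=
  (((cd_NN (cd_al ht hx hy) (cd_be ht hx hy)).inv fun _ => NN_ne (albe_ne _ _ _)).pow 2).mul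
    (cd_M1 (cd_conj (cd_al ht hx hy)) (cd_be ht hx hy).neg ha ((cd_rhi ht hx hy).mul hb))

lemma cd_g2 (ht : ContDiff ℝ ω t) (hx : ContDiff ℝ ω x) (hy : ContDiff ℝ ω y)
    (ha : ContDiff ℝ ω a) (hb : ContDiff ℝ ω b) :
    ContDiff ℝ ω fun p => g2 (t p) (x p) (y p) (a p) (b p) :=
  (((cd_NN (cd_al ht hx hy) (cd_be ht hx hy)).inv fun _ => NN_ne (albe_ne _ _ _)).pow 2).mul
    (cd_M2 (cd_conj (cd_al ht hx hy)) (cd_be ht hx hy).neg ha ((cd_rhi ht hx hy).mul hb))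

end smooth

end path

end Pool.Agent.Lib.MP_563419_an.Ins
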