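import Mathlib
import Pool.Agent.Lib.MP_563419_an.Ins.Alg
import Pool.Agent.Lib.MP_563419_an.Ins.Isotopy

/-! The isotopy of `Z`. -/

set_option autoImplicit false

open MvPolynomial Sum Pool.Agent.Lib.MP_563419_an ComplexConjugate
open scoped ContDiff

namespace Pool.Agent.Lib.MP_563419_an.Iso

variable (k : ℕ)

section isotopy

/-- a map which changes the coordinates `z_0`, `z_1` -/
noncomputable def mov (a b : ℝ → ℂ → ℂ → ℂ → ℂ → ℂ) (p : ℝ × (Idx k → ℂ)) : Idx k → ℂ := fun i =>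
  if i = inr (inr 0) then
    a p.1 (p.2 (inr (inl 0))) (p.2 (inr (inl 1))) (p.2 (inr (inr 0))) (p.2 (inr (inr 1)))
  else if i = inr (inr 1) then
    b p.1 (p.2 (inr (inl 0))) (p.2 (inr (inl 1))) (p.2 (inr (inr 0))) (p.2 (inr (inr 1)))
  else p.2 i

variable {k}

lemma z_ne : (inr (inr 1) : Idx k) ≠ inr (inr 0) := by
  intro h
  have h1 := Sum.inr_injective (Sum.inr_injective h)
  exact one_ne_zero h1

lemma mov_0 (a b : ℝ → ℂ → ℂ → ℂ → ℂ → ℂ) (p : ℝ × (Idx k → ℂ)) :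
    mov k a b p (inr (inr 0)) =
      a p.1 (p.2 (inr (inl 0))) (p.2 (inr (inl 1))) (p.2 (inr (inr 0))) (p.2 (inr (inr 1))) := by
  simp [mov]

lemma mov_1 (a b : ℝ → ℂ → ℂ → ℂ → ℂ → ℂ) (p : ℝ × (Idx k → ℂ)) :
    mov k a b p (inr (inr 1)) =
      b p.1 (p.2 (inr (inl 0))) (p.2 (inr (inl 1))) (p.2 (inr (inr 0))) (p.2 (inr (inr 1))) := by
  unfold mov
  rw [if_neg z_ne, if_pos rfl]

lemma mov_ne (a b : ℝ → ℂ → ℂ → ℂ → ℂ → ℂ) (p : ℝ × (Idx k → ℂ)) {i : Idx k}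
    (h0 : i ≠ inr (inr 0)) (h1 : i ≠ inr (inr 1)) : mov k a b p i = p.2 i := by
  unfold mov
  rw [if_neg h0, if_neg h1]

lemma mov_mem (a b : ℝ → ℂ → ℂ → ℂ → ℂ → ℂ) (t : ℝ) {u : Idx k → ℂ} (hu : u ∈ Zset k) :
    mov k a b (t, u) ∈ Zset k := by
  change mov k a b (t, u) (inl 0) * (1 - mov k a b (t, u) (inl 0)) =
    mov k a b (t, u) (inl 1) * mov k a b (t, u) (inl 2)
  rw [mov_ne a b _ (by simp) (by simp), mov_ne a b _ (by simp) (by simp),
    mov_ne a b _ (by simp) (by simp)]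
  exact hu

lemma mov_mov {a b c d : ℝ → ℂ → ℂ → ℂ → ℂ → ℂ}
    (h1 : ∀ t x y v w, c t x y (a t x y v w) (b t x y v w) = v)
    (h2 : ∀ t x y v w, d t x y (a t x y v w) (b t x y v w) = w) (t : ℝ) (u : Idx k → ℂ) :
    mov k c d (t, mov k a b (t, u)) = u := by
  funext i
  by_cases h0 : i = inr (inr 0)
  · subst h0
    rw [mov_0]
    simp only [mov_0, mov_1]
    rw [mov_ne a b _ (by simp) (by simp), mov_ne a b _ (by simp) (by simp), h1]
  · by_cases h3 : i = inr (inr 1)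
    · subst h3
      rw [mov_1]
      simp only [mov_0, mov_1]
      rw [mov_ne a b _ (by simp) (by simp), mov_ne a b _ (by simp) (by simp), h2]
    · rw [mov_ne c d _ h0 h3]
      exact mov_ne a b _ h0 h3

lemma mov_contDiff {a b : ℝ → ℂ → ℂ → ℂ → ℂ → ℂ}
    (ha : ∀ (t : ℝ × (Idx k → ℂ) → ℝ) (x y v w : ℝ × (Idx k → ℂ) → ℂ), ContDiff ℝ ω t →
      ContDiff ℝ ω x → ContDiff ℝ ω y → ContDiff ℝ ω v → ContDiff ℝ ω w →
      ContDiff ℝ ω fun p => a (t p) (x p) (y p) (v p) (w p))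
    (hb : ∀ (t : ℝ × (Idx k → ℂ) → ℝ) (x y v w : ℝ × (Idx k → ℂ) → ℂ), ContDiff ℝ ω t →
      ContDiff ℝ ω x → ContDiff ℝ ω y → ContDiff ℝ ω v → ContDiff ℝ ω w →
      ContDiff ℝ ω fun p => b (t p) (x p) (y p) (v p) (w p)) :
    ContDiff ℝ ω (mov k a b) := by
  have hc : ∀ i : Idx k, ContDiff ℝ ω fun p : ℝ × (Idx k → ℂ) => p.2 i := fun i =>
    (contDiff_apply ℝ ℂ i).comp contDiff_snd
  rw [contDiff_pi]
  intro i
  unfold mov
  by_cases h0 : i = inr (inr 0)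
  · simp only [if_pos h0]
    exact ha _ _ _ _ _ contDiff_fst (hc _) (hc _) (hc _) (hc _)
  · simp only [if_neg h0]
    by_cases h1 : i = inr (inr 1)
    · simp only [if_pos h1]
      exact hb _ _ _ _ _ contDiff_fst (hc _) (hc _) (hc _) (hc _)
    · simp only [if_neg h1]
      exact hc i

variable (k)

/-- the isotopy -/
noncomputable def HH (t : ℝ) : Zset k ≃ Zset k where
  toFun z := ⟨mov k Ins.h1 Ins.h2 (t, (z : Idx k → ℂ)), mov_mem Ins.h1 Ins.h2 t z.2⟩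
  invFun z := ⟨mov k Ins.g1 Ins.g2 (t, (z : Idx k → ℂ)), mov_mem Ins.g1 Ins.g2 t z.2⟩
  left_inv z := Subtype.ext (mov_mov (a := Ins.h1) (b := Ins.h2) (c := Ins.g1) (d := Ins.g2)
    Ins.hg1 Ins.hg2 t (z : Idx k → ℂ))
  right_inv z := Subtype.ext (mov_mov (a := Ins.g1) (b := Ins.g2) (c := Ins.h1) (d := Ins.h2)
    Ins.gh1 Ins.gh2 t (z : Idx k → ℂ))

lemma HH_isotopy : IsAnalyticIsotopy (HH k) :=
  ⟨mov k Ins.h1 Ins.h2, mov k Ins.g1 Ins.g2,
    mov_contDiff (fun _ _ _ _ _ ht hx hy hv hw => Ins.cd_h1 ht hx hy hv hw)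
      (fun _ _ _ _ _ ht hx hy hv hw => Ins.cd_h2 ht hx hy hv hw),
    mov_contDiff (fun _ _ _ _ _ ht hx hy hv hw => Ins.cd_g1 ht hx hy hv hw)
      (fun _ _ _ _ _ ht hx hy hv hw => Ins.cd_g2 ht hx hy hv hw),
    fun _ _ => ⟨rfl, rfl⟩⟩

lemma HH_zero : HH k 0 = Equiv.refl _ := by
  ext z i
  change mov k Ins.h1 Ins.h2 (0, z) i = (z : Idx k → ℂ) i
  by_cases h0 : i = inr (inr 0)
  · subst h0
    rw [mov_0]
    exact Ins.h1_zero _ _ _ _
  · by_cases h1 : i = inr (inr 1)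
    · subst h1
      rw [mov_1]
      exact Ins.h2_zero _ _ _ _
    · exact mov_ne _ _ _ h0 h1

/-- the end of the isotopy -/
lemma HH_one {u : Idx k → ℂ}
    (h : u (inr (inl 0)) * u (inr (inl 1)) = 1 ∨ ∀ j, u (inr (inr j)) = 0) :
    mov k Ins.h1 Ins.h2 (1, u) = scale k (u (inr (inl 0)) ^ 2) u := by
  funext i
  by_cases h0 : i = inr (inr 0)
  · subst h0
    rw [mov_0, scale_0]
    rcases h with h | h
    · exact Ins.h1_one h _ _
    · change Ins.h1 1 (u _) (u _) (u (inr (inr 0))) (u (inr (inr 1))) = _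
      rw [h 0, h 1, Ins.h1_fix, mul_zero]
  · by_cases h1 : i = inr (inr 1)
    · subst h1
      rw [mov_1, scale_ne k _ _ h0]
      rcases h with h | h
      · exact Ins.h2_one h _ _
      · change Ins.h2 1 (u _) (u _) (u (inr (inr 0))) (u (inr (inr 1))) = _
        rw [h 0, h 1, Ins.h2_fix]
    · rw [mov_ne _ _ _ h0 h1, scale_ne k _ _ h0]

lemma HH_phi : Extends (HH k 1) (phi k) := by
  intro u z hz
  change mov k Ins.h1 Ins.h2 (1, z) = scale k ((u : Idx k → ℂ) (inr (inl 0)) ^ 2) u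
  rw [hz]
  exact HH_one k (Or.inl u.2.2)

lemma HH_psi : Extends (HH k 1) (psi k) := by
  intro u z hz
  change mov k Ins.h1 Ins.h2 (1, z) = scale k ((u : Idx k → ℂ) (inr (inl 0)) ^ 2) u
  rw [hz]
  refine HH_one k ?_
  by_cases h : (u : Idx k → ℂ) (inr (inl 0)) * (u : Idx k → ℂ) (inr (inl 1)) = 1
  · exact Or.inl h
  · refine Or.inr fun j => ?_
    exact (mul_eq_zero.1 (u.2.2.2 _ (free_z k j))).resolve_right (sub_ne_zero.2 h)

end isotopy

end Pool.Agent.Lib.MP_563419_an.Iso
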