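import Mathlib
import Pool.Agent.Lib.MP_563419_an.Ins.Alg

/-! The hypersurface `X` is an affine-algebraic manifold. -/

set_option autoImplicit false

open MvPolynomial Sum Pool.Agent.Lib.MP_563419_an

namespace Pool.Agent.Lib.MP_563419_an.Iso

variable (k : ℕ)

/-- the coordinates `x`, `z_j` -/
abbrev TT : Type := Fin 1 ⊕ Fin (k + 2)

/-- the ring `ℂ[Q][x, z]` -/
abbrev R : Type := MvPolynomial (Ins.Idx (TT k)) ℂ ⧸ Ins.I (TT k)

/-- the coordinate `x` -/
noncomputable def xr : R k := Ideal.Quotient.mk (Ins.I (TT k)) (X (inr (inl 0)))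

/-- the ring `ℂ[Q][x, 1/x, z]` -/
abbrev L : Type := Localization.Away (xr k)

/-- the images of the coordinates -/
noncomputable def psiVal (i : Idx k) : L k :=
  Sum.elim (fun a => algebraMap (R k) (L k) (Ideal.Quotient.mk (Ins.I (TT k)) (X (inl a))))
    (Sum.elim ![algebraMap (R k) (L k) (xr k), IsLocalization.Away.invSelf (xr k)]
      (fun j => algebraMap (R k) (L k) (Ideal.Quotient.mk (Ins.I (TT k)) (X (inr (inr j)))))) i

noncomputable def psr : MvPolynomial (Idx k) ℂ →ₐ[ℂ] L k := aeval (psiVal k)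

lemma psr_X (i : Idx k) : psr k (X i) = psiVal k i := by
  rw [psr, aeval_X]

instance dom_R : IsDomain (R k) := Ins.isDomain_A (TT k)

lemma xr_ne : xr k ≠ 0 := by
  intro h
  have h1 : (X (inr (inl 0)) : MvPolynomial (Ins.Idx (TT k)) ℂ) ∈ Ins.I (TT k) :=
    Ideal.Quotient.eq_zero_iff_mem.1 h
  rw [← Ins.vanishing_Z, mem_vanishingIdeal_iff] at h1
  have h2 := h1 (Sum.elim (fun _ => 0) fun _ => 1) (by
    change (0 : ℂ) * (1 - 0) = 0 * 0
    ring)
  rw [aeval_X] at h2
  exact one_ne_zero h2

lemma psr_surj : Function.Surjective (psr k) := by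
  have h0 : ∀ i : Ins.Idx (TT k),
      algebraMap (R k) (L k) (Ideal.Quotient.mk (Ins.I (TT k)) (X i)) ∈ (psr k).range := by
    intro i
    rcases i with a | a | j
    · exact ⟨X (inl a), psr_X k _⟩
    · obtain rfl : a = 0 := Subsingleton.elim _ _
      exact ⟨X (inr (inl 0)), psr_X k _⟩
    · exact ⟨X (inr (inr j)), psr_X k _⟩
  have h1 : ∀ r : R k, algebraMap (R k) (L k) r ∈ (psr k).range := by
    intro r
    obtain ⟨r, rfl⟩ := Ideal.Quotient.mk_surjective r
    induction r using MvPolynomial.induction_on with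
    | C a =>
      have : algebraMap (R k) (L k) (Ideal.Quotient.mk (Ins.I (TT k)) (C a)) =
          algebraMap ℂ (L k) a := by
        rw [IsScalarTower.algebraMap_apply ℂ (R k) (L k)]
        rfl
      rw [this]
      exact Subalgebra.algebraMap_mem _ a
    | add p q hp hq =>
      rw [map_add, map_add]
      exact Subalgebra.add_mem _ hp hq
    | mul_X p i hp =>
      rw [map_mul, map_mul]
      exact Subalgebra.mul_mem _ hp (h0 i)
  have h2 : (IsLocalization.Away.invSelf (xr k) : L k) ∈ (psr k).range :=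
    ⟨X (inr (inl 1)), psr_X k _⟩
  intro a
  obtain ⟨n, r, hr⟩ := IsLocalization.Away.surj (xr k) a
  have h3 : a = algebraMap (R k) (L k) r * (IsLocalization.Away.invSelf (xr k)) ^ n := by
    rw [← hr, mul_assoc, ← mul_pow, IsLocalization.Away.mul_invSelf, one_pow, mul_one]
  rw [h3]
  exact Subalgebra.mul_mem _ (h1 r) (Subalgebra.pow_mem _ h2 n)

/-- the projection which forgets `y` -/
def pt0 (p : Idx k → ℂ) : Ins.Idx (TT k) → ℂ :=
  Sum.elim (fun a => p (inl a)) (Sum.elim (fun _ => p (inr (inl 0))) fun j => p (inr (inr j)))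

lemma pt0_mem {p : Idx k → ℂ} (hp : p ∈ Xset k) : pt0 k p ∈ Ins.Zset (TT k) := hp.1

lemma aeval_eq {σ : Type} (p : σ → ℂ) (f : MvPolynomial σ ℂ) :
    (aeval p : MvPolynomial σ ℂ →ₐ[ℂ] ℂ) f = eval p f := by
  rw [← MvPolynomial.coe_aeval_eq_eval]
  rfl

/-- the value at a point of `X` -/
noncomputable def ev {q : Ins.Idx (TT k) → ℂ} (hq : q ∈ Ins.Zset (TT k)) : R k →+* ℂ :=
  Ideal.Quotient.lift (Ins.I (TT k)) (eval q) fun a ha => by
    rw [← Ins.vanishing_Z, mem_vanishingIdeal_iff] at ha
    rw [← aeval_eq]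
    exact ha q hq

lemma ev_mk {q : Ins.Idx (TT k) → ℂ} (hq : q ∈ Ins.Zset (TT k))
    (f : MvPolynomial (Ins.Idx (TT k)) ℂ) :
    ev k hq (Ideal.Quotient.mk (Ins.I (TT k)) f) = eval q f := rfl

lemma isUnit_ev {p : Idx k → ℂ} (hp : p ∈ Xset k) : IsUnit (ev k (pt0_mem k hp) (xr k)) := by
  rw [xr, ev_mk, eval_X]
  exact IsUnit.of_mul_eq_one _ hp.2

lemma lift_psr {p : Idx k → ℂ} (hp : p ∈ Xset k) (f : MvPolynomial (Idx k) ℂ) :
    IsLocalization.Away.lift (xr k) (isUnit_ev k hp) (psr k f) = eval p f := by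
  have h : p (inr (inl 0)) * p (inr (inl 1)) = 1 := hp.2
  have key : (IsLocalization.Away.lift (xr k) (isUnit_ev k hp) : L k →+* ℂ).comp
      (psr k).toRingHom = eval p := by
    apply MvPolynomial.ringHom_ext
    · intro a
      have : (psr k).toRingHom (C a) =
          algebraMap (R k) (L k) (Ideal.Quotient.mk (Ins.I (TT k)) (C a)) := by
        change psr k (C a) = _
        rw [psr, aeval_C, IsScalarTower.algebraMap_apply ℂ (R k) (L k)]
        rfl
      rw [RingHom.comp_apply, this, IsLocalization.Away.lift_eq, ev_mk, eval_C, eval_C]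
    · intro i
      rw [RingHom.comp_apply, eval_X]
      have : (psr k).toRingHom (X i) = psiVal k i := psr_X k i
      rw [this]
      rcases i with a | a | j
      · change IsLocalization.Away.lift (xr k) (isUnit_ev k hp)
          (algebraMap (R k) (L k) (Ideal.Quotient.mk (Ins.I (TT k)) (X (inl a)))) = _
        rw [IsLocalization.Away.lift_eq, ev_mk, eval_X]
        rfl
      · have h1 : IsLocalization.Away.lift (xr k) (isUnit_ev k hp)
            (algebraMap (R k) (L k) (xr k)) = p (inr (inl 0)) := by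
          rw [IsLocalization.Away.lift_eq, xr, ev_mk, eval_X]
          rfl
        fin_cases a
        · exact h1
        · change IsLocalization.Away.lift (xr k) (isUnit_ev k hp)
            (IsLocalization.Away.invSelf (xr k) : L k) = p (inr (inl 1))
          have h2 := congrArg (IsLocalization.Away.lift (xr k) (isUnit_ev k hp))
            (IsLocalization.Away.mul_invSelf (S := L k) (xr k))
          rw [map_mul, h1, map_one] at h2
          have h3 : p (inr (inl 0)) ≠ 0 := left_ne_zero_of_mul_eq_one h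
          exact mul_left_cancel₀ h3 (h2.trans h.symm)
      · change IsLocalization.Away.lift (xr k) (isUnit_ev k hp)
          (algebraMap (R k) (L k) (Ideal.Quotient.mk (Ins.I (TT k)) (X (inr (inr j))))) = _
        rw [IsLocalization.Away.lift_eq, ev_mk, eval_X]
        rfl
  exact congrArg (fun g : MvPolynomial (Idx k) ℂ →+* ℂ => g f) key

lemma ker_psr : RingHom.ker (psr k) = vanishingIdeal ℂ (Xset k) := by
  ext f
  rw [RingHom.mem_ker, mem_vanishingIdeal_iff]
  constructor
  · intro hf p hp
    have := lift_psr k hp f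
    rw [hf, map_zero] at this
    rw [aeval_eq, ← this]
  · intro hf
    obtain ⟨n, r, hr⟩ := IsLocalization.Away.surj (xr k) (psr k f)
    obtain ⟨r, rfl⟩ := Ideal.Quotient.mk_surjective r
    have h1 : xr k * Ideal.Quotient.mk (Ins.I (TT k)) r = 0 := by
      rw [xr, ← map_mul, Ideal.Quotient.eq_zero_iff_mem, ← Ins.vanishing_Z, mem_vanishingIdeal_iff]
      intro q hq
      rw [aeval_eq, map_mul, eval_X]
      by_cases hq0 : q (inr (inl 0)) = 0
      · rw [hq0, zero_mul]
      · set p : Idx k → ℂ := Sum.elim (fun a => q (inl a))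
          (Sum.elim ![q (inr (inl 0)), (q (inr (inl 0)))⁻¹] fun j => q (inr (inr j))) with hpd
        have hp : p ∈ Xset k := ⟨hq, mul_inv_cancel₀ hq0⟩
        have hpq : pt0 k p = q := by
          funext i
          rcases i with a | a | j
          · rfl
          · obtain rfl : a = 0 := Subsingleton.elim _ _
            rfl
          · rfl
        have h2 := congrArg (IsLocalization.Away.lift (xr k) (isUnit_ev k hp)) hr
        rw [map_mul, lift_psr k hp f, IsLocalization.Away.lift_eq, ev_mk] at h2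
        have h3 : eval p f = 0 := by
          rw [← aeval_eq]
          exact hf p hp
        rw [h3, zero_mul, hpq] at h2
        rw [← h2, mul_zero]
    have h2 := (mul_eq_zero.1 h1).resolve_left (xr_ne k)
    rw [h2, map_zero] at hr
    have h3 : IsUnit (algebraMap (R k) (L k) (xr k) ^ n) :=
      (IsLocalization.Away.algebraMap_isUnit (xr k)).pow n
    exact (h3.mul_left_eq_zero).1 hr

lemma manifold_X : IsAffineManifold (Xset k) := by
  have e : CoordRing (Xset k) ≃ₐ[ℂ] L k := by
    have e1 := Ideal.quotientKerAlgEquivOfSurjective (psr_surj k)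
    have e2 : CoordRing (Xset k) ≃ₐ[ℂ] (MvPolynomial (Idx k) ℂ ⧸ RingHom.ker (psr k)) :=
      Ideal.quotientEquivAlgOfEq ℂ (ker_psr k).symm
    exact e2.trans e1
  have hd : IsDomain (L k) :=
    IsLocalization.isDomain_localization (powers_le_nonZeroDivisors_of_noZeroDivisors (xr_ne k))
  refine ⟨algebraic_X k, e.toMulEquiv.isDomain (L k), ?_⟩
  have h1 : Algebra.Smooth ℂ (R k) := Ins.smooth_A (TT k)
  have h2 : Algebra.Smooth (R k) (L k) := Algebra.Smooth.of_isLocalization_Away (xr k)
  have h3 : Algebra.Smooth ℂ (L k) := Algebra.Smooth.comp ℂ (R k) (L k)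
  exact Algebra.Smooth.of_equiv e.symm

end Pool.Agent.Lib.MP_563419_an.Iso
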