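import Mathlib
import Pool.Agent.Lib.MP_563419_an.NoRetraction

/-! Winding numbers, derivatives with parameters, division by `x y - 1`. -/

open ComplexConjugate

namespace Pool.Agent.Lib.MP_563419_an.Ins

/-- a nowhere zero continuous function on `ℂ` is not `ζ^(-m)` on the unit circle -/
lemma no_winding_pow {g : ℂ → ℂ} (hg : Continuous g) (h0 : ∀ z, g z ≠ 0) {m : ℕ}
    (hm : 1 ≤ m) (hc : ∀ ζ : ℂ, ‖ζ‖ = 1 → ζ ^ m * g ζ = 1) : False := by
  obtain ⟨f, hf, hfg⟩ := exists_log g hg h0 0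
  set ζ : ℝ → ℂ := fun θ => Complex.exp (θ * Complex.I) with hζ
  have hζc : Continuous ζ := by rw [hζ]; fun_prop
  have hζn : ∀ θ, ‖ζ θ‖ = 1 := fun θ => Complex.norm_exp_ofReal_mul_I θ
  set k : ℝ → ℝ := fun θ => m * θ + (f (ζ θ)).im with hk
  have hkc : Continuous k := by rw [hk]; fun_prop
  have hcos : ∀ θ, 0 < Real.cos (k θ) := by
    intro θ
    have h1 := hc (ζ θ) (hζn θ)
    rw [← hfg] at h1
    have h2 : ζ θ ^ m * Complex.exp (f (ζ θ))
        = (Real.exp (f (ζ θ)).re : ℂ) * Complex.exp ((k θ : ℝ) * Complex.I) := by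
      have h3 : f (ζ θ) = ((f (ζ θ)).re : ℂ) + ((f (ζ θ)).im : ℂ) * Complex.I :=
        (Complex.re_add_im _).symm
      have h4 : ζ θ ^ m = Complex.exp ((m : ℂ) * ((θ : ℂ) * Complex.I)) := by
        simp only [hζ]
        rw [← Complex.exp_nat_mul]
      rw [h4, Complex.ofReal_exp, ← Complex.exp_add, ← Complex.exp_add]
      congr 1
      conv_lhs => rw [h3]
      simp only [hk]
      push_cast
      ring
    rw [h2] at h1
    have h3 := congrArg Complex.re h1
    rw [Complex.re_ofReal_mul, Complex.exp_ofReal_mul_I_re, Complex.one_re] at h3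
    by_contra hneg
    push Not at hneg
    have h4 : 0 < Real.exp (f (ζ θ)).re := Real.exp_pos _
    nlinarith
  have hper : k (2 * Real.pi) = k 0 + m * (2 * Real.pi) := by
    have : ζ (2 * Real.pi) = ζ 0 := by
      simp only [hζ]
      push_cast
      rw [Complex.exp_two_pi_mul_I]
      simp
    simp only [hk, this]
    ring
  have hpi := Real.pi_pos
  have hm1 : (1 : ℝ) ≤ m := by exact_mod_cast hm
  have hmem : k 0 + Real.pi ∈ Set.Icc (k 0) (k (2 * Real.pi)) := by
    rw [hper]; constructor <;> nlinarith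
  obtain ⟨θ, -, hθ⟩ := intermediate_value_Icc (by positivity : (0 : ℝ) ≤ 2 * Real.pi)
    hkc.continuousOn hmem
  have h1 := hcos θ
  rw [hθ, Real.cos_add_pi] at h1
  have h2 := hcos 0
  linarith

/-- the derivative at `0` depends continuously on parameters -/
lemma continuous_deriv_zero {T : Type} [TopologicalSpace T] {g : T → ℂ → ℂ}
    (hg : Continuous fun p : T × ℂ => g p.1 p.2) (hd : ∀ t, Differentiable ℂ (g t)) :
    Continuous fun t => deriv (g t) 0 := by
  have h1 : ∀ t, deriv (g t) 0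
      = (2 * Real.pi * Complex.I : ℂ)⁻¹ * ∮ z in C(0, 1), (1 / (z - 0) ^ 2) • g t z := by
    intro t
    rw [(hd t).differentiableOn.deriv_eq_smul_circleIntegral one_pos, smul_eq_mul, ← mul_assoc,
      inv_mul_cancel₀ Complex.two_pi_I_ne_zero, one_mul]
  simp only [h1]
  refine Continuous.mul continuous_const ?_
  simp only [circleIntegral]
  refine intervalIntegral.continuous_parametric_intervalIntegral_of_continuous' ?_ _ _
  have h3 : Continuous fun q : T × ℝ => g q.1 (circleMap 0 1 q.2) := by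
    have h4 : Continuous fun q : T × ℝ => (q.1, circleMap 0 1 q.2) := by fun_prop
    exact hg.comp h4
  change Continuous fun q : T × ℝ => deriv (circleMap 0 1) q.2
    * ((1 / (circleMap 0 1 q.2 - 0) ^ 2) * g q.1 (circleMap 0 1 q.2))
  refine Continuous.mul ?_ (Continuous.mul ?_ h3)
  · have : ∀ θ : ℝ, deriv (circleMap 0 1) θ = circleMap 0 1 θ * Complex.I := fun θ => by
      rw [deriv_circleMap]
    simp only [this]
    fun_prop
  · refine Continuous.div continuous_const (by fun_prop) ?_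
    intro q
    simp only [sub_zero]
    exact pow_ne_zero 2 (circleMap_ne_center one_ne_zero)

lemma normSq_one {ζ : ℂ} : conj ζ * ζ = 1 ↔ ‖ζ‖ = 1 := by
  rw [Complex.conj_mul']
  constructor
  · intro h
    have h2 : ‖ζ‖ ^ 2 = 1 := by exact_mod_cast h
    exact (pow_eq_one_iff_of_nonneg (norm_nonneg _) (by norm_num)).1 h2
  · intro h
    rw [h]
    norm_num

section quotient

variable {G : ℂ → ℂ → ℂ}

/-- the derivative in `x` -/
noncomputable def dG (G : ℂ → ℂ → ℂ) (x y : ℂ) : ℂ := deriv (fun s => G (x + s) y) 0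

lemma continuous_dG (hG : Continuous fun p : ℂ × ℂ => G p.1 p.2)
    (hd : ∀ y, Differentiable ℂ fun x => G x y) :
    Continuous fun p : ℂ × ℂ => dG G p.1 p.2 := by
  refine continuous_deriv_zero (g := fun (p : ℂ × ℂ) s => G (p.1 + s) p.2) ?_ ?_
  · have h4 : Continuous fun q : (ℂ × ℂ) × ℂ => (q.1.1 + q.2, q.1.2) := by fun_prop
    exact hG.comp h4
  · intro p
    have h4 : Differentiable ℂ fun s : ℂ => p.1 + s := by fun_prop
    exact (hd p.2).comp h4

lemma hasDerivAt_dG (hd : ∀ y, Differentiable ℂ fun x => G x y) (x y : ℂ) :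
    HasDerivAt (fun s => G s y) (dG G x y) x := by
  have h1 : HasDerivAt (fun s => G s y) (deriv (fun s => G s y) x) x := (hd y x).hasDerivAt
  have h2 : dG G x y = deriv (fun s => G s y) x := by
    unfold dG
    have h3 := deriv_comp_const_add (f := fun s => G s y) x 0
    rw [h3, add_zero]
  rw [h2]
  exact h1

/-- the integral formula for `G / (x y - 1)` at `(ζ̄, ζ)` -/
private noncomputable def gI (G : ℂ → ℂ → ℂ) (ζ : ℂ) : ℂ :=
  ζ⁻¹ * ∫ t in (0 : ℝ)..1, dG G (ζ⁻¹ + t * (conj ζ - ζ⁻¹)) ζ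

private noncomputable def hh (G : ℂ → ℂ → ℂ) (ζ : ℂ) : ℂ :=
  if ‖ζ‖ < 1 then G (conj ζ) ζ / (conj ζ * ζ - 1) else gI G ζ

private lemma gI_eq (hG : Continuous fun p : ℂ × ℂ => G p.1 p.2)
    (hd : ∀ y, Differentiable ℂ fun x => G x y) (h0 : ∀ x y, x * y = 1 → G x y = 0) {ζ : ℂ}
    (hζ : ζ ≠ 0) : (conj ζ * ζ - 1) * gI G ζ = G (conj ζ) ζ := by
  have hc : Continuous fun t : ℝ => dG G (ζ⁻¹ + t * (conj ζ - ζ⁻¹)) ζ * (conj ζ - ζ⁻¹) := by
    have h4 : Continuous fun t : ℝ => (ζ⁻¹ + (t : ℂ) * (conj ζ - ζ⁻¹), ζ) := by fun_prop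
    exact ((continuous_dG hG hd).comp h4).mul continuous_const
  have hder : ∀ t : ℝ, HasDerivAt (fun t : ℝ => G (ζ⁻¹ + t * (conj ζ - ζ⁻¹)) ζ)
      (dG G (ζ⁻¹ + t * (conj ζ - ζ⁻¹)) ζ * (conj ζ - ζ⁻¹)) t := by
    intro t
    have h1 : HasDerivAt (fun s : ℂ => ζ⁻¹ + s * (conj ζ - ζ⁻¹)) (conj ζ - ζ⁻¹) (t : ℂ) := by
      have := ((hasDerivAt_id (t : ℂ)).mul_const (conj ζ - ζ⁻¹)).const_add ζ⁻¹
      simpa using this
    have h2 := (hasDerivAt_dG hd (ζ⁻¹ + t * (conj ζ - ζ⁻¹)) ζ).comp (t : ℂ) h1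
    exact h2.comp_ofReal
  have h2 := intervalIntegral.integral_eq_sub_of_hasDerivAt (a := 0) (b := 1)
    (fun t _ => hder t) (hc.intervalIntegrable 0 1)
  rw [intervalIntegral.integral_mul_const] at h2
  have h3 : ζ⁻¹ + ((1 : ℝ) : ℂ) * (conj ζ - ζ⁻¹) = conj ζ := by
    push_cast
    ring
  have h4 : ζ⁻¹ + ((0 : ℝ) : ℂ) * (conj ζ - ζ⁻¹) = ζ⁻¹ := by
    push_cast
    ring
  have h5 : G ζ⁻¹ ζ = 0 := h0 _ _ (inv_mul_cancel₀ hζ)
  rw [h3, h4, h5, sub_zero] at h2
  rw [← h2]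
  unfold gI
  field_simp

private lemma gI_circle {ζ : ℂ} (hζ : conj ζ * ζ = 1) : gI G ζ = conj ζ * dG G (conj ζ) ζ := by
  have hz : ζ ≠ 0 := right_ne_zero_of_mul_eq_one hζ
  have h2 : ζ⁻¹ = conj ζ := inv_eq_of_mul_eq_one_left hζ
  unfold gI
  rw [h2]
  simp

private lemma gI_continuousAt (hG : Continuous fun p : ℂ × ℂ => G p.1 p.2)
    (hd : ∀ y, Differentiable ℂ fun x => G x y) {ζ : ℂ} (hζ : ζ ≠ 0) :
    ContinuousAt (gI G) ζ := by
  have hU : IsOpen {z : ℂ | z ≠ 0} := isOpen_ne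
  have hcont : Continuous fun z : {z : ℂ // z ≠ 0} => gI G z := by
    unfold gI
    have hi : Continuous fun z : {z : ℂ // z ≠ 0} => (z : ℂ)⁻¹ :=
      continuous_subtype_val.inv₀ (fun z => z.2)
    refine hi.mul ?_
    refine intervalIntegral.continuous_parametric_intervalIntegral_of_continuous' ?_ _ _
    have h3 : Continuous fun q : {z : ℂ // z ≠ 0} × ℝ => (q.1 : ℂ)⁻¹ := hi.comp continuous_fst
    have h4 : Continuous fun q : {z : ℂ // z ≠ 0} × ℝ => conj (q.1 : ℂ) :=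
      Complex.continuous_conj.comp (continuous_subtype_val.comp continuous_fst)
    have h5 : Continuous fun q : {z : ℂ // z ≠ 0} × ℝ => ((q.2 : ℝ) : ℂ) :=
      Complex.continuous_ofReal.comp continuous_snd
    have h6 : Continuous fun q : {z : ℂ // z ≠ 0} × ℝ =>
        ((q.1 : ℂ)⁻¹ + ((q.2 : ℝ) : ℂ) * (conj (q.1 : ℂ) - (q.1 : ℂ)⁻¹), (q.1 : ℂ)) :=
      (h3.add (h5.mul (h4.sub h3))).prodMk (continuous_subtype_val.comp continuous_fst)
    exact (continuous_dG hG hd).comp h6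
  have h2 : ContinuousOn (gI G) {z : ℂ | z ≠ 0} := continuousOn_iff_continuous_domRestrict.2 hcont
  exact h2.continuousAt (hU.mem_nhds hζ)

private lemma hh_continuous (hG : Continuous fun p : ℂ × ℂ => G p.1 p.2)
    (hd : ∀ y, Differentiable ℂ fun x => G x y) (h0 : ∀ x y, x * y = 1 → G x y = 0) :
    Continuous (hh G) := by
  rw [continuous_iff_continuousAt]
  intro ζ
  by_cases hζ : ζ = 0
  · subst hζ
    have h2 : hh G =ᶠ[nhds 0] fun ζ => G (conj ζ) ζ / (conj ζ * ζ - 1) := by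
      filter_upwards [Metric.ball_mem_nhds (0 : ℂ) one_pos] with z hz
      have : ‖z‖ < 1 := by simpa using hz
      simp only [hh, if_pos this]
    refine ContinuousAt.congr ?_ h2.symm
    refine ContinuousAt.div ?_ ?_ ?_
    · have h3 : Continuous fun z : ℂ => (conj z, z) := Complex.continuous_conj.prodMk continuous_id
      exact (hG.comp h3).continuousAt
    · exact ((Complex.continuous_conj.mul continuous_id).sub continuous_const).continuousAt
    · simp
  · have h2 : hh G =ᶠ[nhds ζ] gI G := by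
      filter_upwards [isOpen_ne.mem_nhds hζ] with z hz
      by_cases hz1 : ‖z‖ < 1
      · simp only [hh, if_pos hz1]
        have h3 : conj z * z - 1 ≠ 0 := by
          intro h4
          have := normSq_one.1 (sub_eq_zero.1 h4)
          linarith
        rw [div_eq_iff h3, mul_comm]
        exact (gI_eq hG hd h0 hz).symm
      · simp only [hh, if_neg hz1]
    exact (gI_continuousAt hG hd hζ).congr h2.symm

/-- The quotient of `G` by `x y - 1` at `(ζ̄, ζ)`. -/
theorem exists_quotient (hG : Continuous fun p : ℂ × ℂ => G p.1 p.2)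
    (hd : ∀ y, Differentiable ℂ fun x => G x y) (h0 : ∀ x y, x * y = 1 → G x y = 0)
    (hne : ∀ x y, x * y ≠ 1 → G x y ≠ 0) :
    ∃ h : ℂ → ℂ, Continuous h ∧ (∀ ζ, ‖ζ‖ ≠ 1 → h ζ ≠ 0) ∧
      ∀ ζ, ‖ζ‖ = 1 → h ζ = conj ζ * dG G (conj ζ) ζ := by
  refine ⟨hh G, hh_continuous hG hd h0, ?_, ?_⟩
  · intro ζ hζ
    have hX : conj ζ * ζ ≠ 1 := fun h1 => hζ (normSq_one.1 h1)
    have h2 := hne _ _ hX
    have h3 : conj ζ * ζ - 1 ≠ 0 := sub_ne_zero.2 hX
    by_cases h4 : ‖ζ‖ < 1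
    · simp only [hh, if_pos h4]
      exact div_ne_zero h2 h3
    · simp only [hh, if_neg h4]
      have hz : ζ ≠ 0 := by
        rintro rfl
        simp at h4
      intro h5
      have h6 := gI_eq hG hd h0 hz
      rw [h5, mul_zero] at h6
      exact h2 h6.symm
  · intro ζ hζ
    simp only [hh, if_neg (not_lt.2 hζ.ge)]
    exact gI_circle (normSq_one.2 hζ)

end quotient

end Pool.Agent.Lib.MP_563419_an.Ins
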