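import Mathlib
import Pool.Agent.Lib.MP_563419_an.Ins.Alg
import Pool.Agent.Lib.MP_563419_an.Ins.Wind

/-! No holomorphic automorphism extends the maps. -/

set_option autoImplicit false

open MvPolynomial Sum Pool.Agent.Lib.MP_563419_an ComplexConjugate
open scoped ContDiff

namespace Pool.Agent.Lib.MP_563419_an.Iso

variable (k : ℕ)

section analytic

/-- the point `(0, 0, 0; x, y; 0)` -/
noncomputable def pt (x y : ℂ) : Idx k → ℂ := Sum.elim (fun _ => 0) (Sum.elim ![x, y] fun _ => 0)

lemma pt_l (x y : ℂ) (i : Fin 3) : pt k x y (inl i) = 0 := rfl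

lemma pt_x (x y : ℂ) : pt k x y (inr (inl 0)) = x := rfl

lemma pt_y (x y : ℂ) : pt k x y (inr (inl 1)) = y := rfl

lemma pt_z (x y : ℂ) (j : Fin (k + 2)) : pt k x y (inr (inr j)) = 0 := rfl

lemma idx_cases {motive : Idx k → Prop} (h0 : motive (inl 0)) (h1 : motive (inl 1))
    (h2 : motive (inl 2)) (h3 : motive (inr (inl 0))) (h4 : motive (inr (inl 1)))
    (h5 : ∀ j, motive (inr (inr j))) : ∀ i, motive i := by
  rintro (i | i | j)
  · fin_cases i
    · exact h0
    · exact h1
    · exact h2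
  · fin_cases i
    · exact h3
    · exact h4
  · exact h5 j

/-- the point `(0, 0, 0; x, y; 0) + s e_j` -/
noncomputable def ln (j : Idx k) (x y s : ℂ) : Idx k → ℂ :=
  pt k x y + s • (Pi.single j 1 : Idx k → ℂ)

lemma ln_apply (j i : Idx k) (x y s : ℂ) :
    ln k j x y s i = pt k x y i + if i = j then s else 0 := by
  by_cases h : i = j
  · subst h
    simp [ln]
  · simp [ln, h]

lemma ln_zero (j : Idx k) (x y : ℂ) : ln k j x y 0 = pt k x y := by simp [ln]

lemma ln_mem {j : Idx k} (hj : j ≠ inl 0) (x y s : ℂ) : ln k j x y s ∈ Zset k := by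
  change ln k j x y s (inl 0) * (1 - ln k j x y s (inl 0)) = ln k j x y s (inl 1) * ln k j x y s (inl 2)
  rw [ln_apply, ln_apply, ln_apply, pt_l, pt_l, pt_l, if_neg (Ne.symm hj)]
  by_cases h1 : (inl 1 : Idx k) = j
  · have h2 : (inl 2 : Idx k) ≠ j := by
      rw [← h1]
      simp
    rw [if_neg h2]
    ring
  · rw [if_neg h1]
    ring

lemma pt_mem (x y : ℂ) : pt k x y ∈ Zset k := by
  rw [← ln_zero k (inl 1)]
  exact ln_mem k (by simp) x y 0

lemma hasDerivAt_ln (j : Idx k) (x y s : ℂ) :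
    HasDerivAt (ln k j x y) (Pi.single j 1 : Idx k → ℂ) s := by
  have h := ((hasDerivAt_id s).smul_const (Pi.single j 1 : Idx k → ℂ)).const_add (pt k x y)
  rw [one_smul] at h
  exact h

lemma continuous_ln (j : Idx k) :
    Continuous fun q : (ℂ × ℂ) × ℂ => ln k j q.1.1 q.1.2 q.2 := by
  unfold ln
  refine Continuous.add ?_ (continuous_snd.smul continuous_const)
  refine continuous_pi (idx_cases k ?_ ?_ ?_ ?_ ?_ ?_)
  · exact continuous_const
  · exact continuous_const
  · exact continuous_const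
  · exact continuous_fst.comp continuous_fst
  · exact continuous_snd.comp continuous_fst
  · intro j
    exact continuous_const

open Classical in
/-- a map on `Z`, extended by zero -/
noncomputable def tot (Φ : Zset k → (Idx k → ℂ)) (u : Idx k → ℂ) : Idx k → ℂ :=
  if h : u ∈ Zset k then Φ ⟨u, h⟩ else 0

variable {k}

lemma tot_mem (Φ : Zset k → (Idx k → ℂ)) {u : Idx k → ℂ} (h : u ∈ Zset k) :
    tot k Φ u = Φ ⟨u, h⟩ := dif_pos h

/-- the derivative along curves -/
lemma exists_fd {Φ : Zset k → (Idx k → ℂ)} (h : IsHolomorphicMap Φ) (z : Zset k) :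
    ∃ L : (Idx k → ℂ) →L[ℂ] (Idx k → ℂ), ∀ (γ : ℂ → (Idx k → ℂ)) (γ' : Idx k → ℂ) (s : ℂ),
      (∀ t, γ t ∈ Zset k) → γ s = z → HasDerivAt γ γ' s →
      HasDerivAt (fun t => tot k Φ (γ t)) (L γ') s := by
  obtain ⟨U, hU, hz, F, hF, hΦ⟩ := h z
  refine ⟨fderiv ℂ F z, fun γ γ' s hγ hs hd => ?_⟩
  have h1 : HasFDerivAt F (fderiv ℂ F z) (γ s) := by
    rw [hs]
    exact (hF.differentiableAt (hU.mem_nhds hz)).hasFDerivAt
  have h2 := h1.comp_hasDerivAt s hd
  refine h2.congr_of_eventuallyEq ?_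
  have h3 : ∀ᶠ t in nhds s, γ t ∈ U := by
    have h4 : γ s ∈ U := by
      rw [hs]
      exact hz
    exact hd.continuousAt.eventually (hU.mem_nhds h4)
  filter_upwards [h3] with t ht
  rw [tot_mem Φ (hγ t)]
  exact hΦ ⟨γ t, hγ t⟩ ht

variable (k)

/-- the derivative of `Φ` in the direction `j` -/
noncomputable def col (Φ : Zset k → (Idx k → ℂ)) (j : Idx k) (x y : ℂ) (i : Idx k) : ℂ :=
  deriv (fun s => tot k Φ (ln k j x y s) i) 0

variable {k}

lemma differentiable_ln {Φ : Zset k → (Idx k → ℂ)} (h : IsHolomorphicMap Φ) {j : Idx k}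
    (hj : j ≠ inl 0) (x y : ℂ) (i : Idx k) :
    Differentiable ℂ fun s => tot k Φ (ln k j x y s) i := by
  intro s
  obtain ⟨L, hL⟩ := exists_fd h ⟨ln k j x y s, ln_mem k hj x y s⟩
  have h1 := hL (ln k j x y) _ s (fun t => ln_mem k hj x y t) rfl (hasDerivAt_ln k j x y s)
  exact (hasDerivAt_pi.1 h1 i).differentiableAt

lemma continuous_tot_ln {Φ : Zset k → (Idx k → ℂ)} (h : IsHolomorphicMap Φ) {j : Idx k}
    (hj : j ≠ inl 0) (i : Idx k) :
    Continuous fun q : (ℂ × ℂ) × ℂ => tot k Φ (ln k j q.1.1 q.1.2 q.2) i := by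
  have h1 : Continuous fun q : (ℂ × ℂ) × ℂ =>
      (⟨ln k j q.1.1 q.1.2 q.2, ln_mem k hj _ _ _⟩ : Zset k) :=
    Continuous.subtype_mk (continuous_ln k j) _
  have h2 := (continuous_apply i).comp (h.continuous.comp h1)
  refine h2.congr fun q => ?_
  rw [tot_mem Φ (ln_mem k hj _ _ _)]
  rfl

lemma continuous_tot_pt {Φ : Zset k → (Idx k → ℂ)} (h : IsHolomorphicMap Φ) (i : Idx k) :
    Continuous fun q : ℂ × ℂ => tot k Φ (pt k q.1 q.2) i := by
  have h1 := continuous_tot_ln h (j := inl 1) (by simp) i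
  have h2 : Continuous fun q : ℂ × ℂ => (q, (0 : ℂ)) := by fun_prop
  refine (h1.comp h2).congr fun q => ?_
  simp only [Function.comp, ln_zero]

lemma continuous_col {Φ : Zset k → (Idx k → ℂ)} (h : IsHolomorphicMap Φ) {j : Idx k}
    (hj : j ≠ inl 0) (i : Idx k) : Continuous fun q : ℂ × ℂ => col k Φ j q.1 q.2 i :=
  Ins.continuous_deriv_zero (g := fun (q : ℂ × ℂ) s => tot k Φ (ln k j q.1 q.2 s) i)
    (continuous_tot_ln h hj i) fun q => differentiable_ln h hj q.1 q.2 i

variable (k)

/-- the radial vector -/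
noncomputable def nn (u : Idx k → ℂ) : Idx k → ℂ :=
  Sum.elim ![u (inl 0) - 1 / 2, u (inl 1), u (inl 2)] fun _ => 0

/-- the matrix of the derivative -/
noncomputable def MM (Φ : Zset k → (Idx k → ℂ)) (x y : ℂ) : Matrix (Idx k) (Idx k) ℂ :=
  fun i j => if j = inl 0 then nn k (tot k Φ (pt k x y)) i else col k Φ j x y i

variable {k}

lemma continuous_MM {Φ : Zset k → (Idx k → ℂ)} (h : IsHolomorphicMap Φ) :
    Continuous fun q : ℂ × ℂ => (MM k Φ q.1 q.2).det := by
  refine Continuous.matrix_det (continuous_matrix fun i j => ?_)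
  unfold MM
  by_cases hj : j = inl 0
  · simp only [if_pos hj]
    revert i
    refine idx_cases k ?_ ?_ ?_ ?_ ?_ ?_
    · exact (continuous_tot_pt h (inl 0)).sub continuous_const
    · exact continuous_tot_pt h (inl 1)
    · exact continuous_tot_pt h (inl 2)
    · exact continuous_const
    · exact continuous_const
    · intro j
      exact continuous_const
  · simp only [if_neg hj]
    exact continuous_col h hj i

/-- the derivative is given by a linear map -/
lemma exists_lin {Φ : Zset k → (Idx k → ℂ)} (h : IsHolomorphicMap Φ) (x y : ℂ) :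
    ∃ L : (Idx k → ℂ) →L[ℂ] (Idx k → ℂ),
      (∀ j, j ≠ inl 0 → HasDerivAt (fun s => tot k Φ (ln k j x y s)) (L (Pi.single j 1)) 0) ∧
      (∀ j, j ≠ inl 0 → ∀ i, col k Φ j x y i = L (Pi.single j 1) i) ∧
      ∀ (γ : ℂ → (Idx k → ℂ)) (γ' : Idx k → ℂ), (∀ t, γ t ∈ Zset k) → γ 0 = pt k x y →
        HasDerivAt γ γ' 0 → HasDerivAt (fun t => tot k Φ (γ t)) (L γ') 0 := by
  obtain ⟨L, hL⟩ := exists_fd h ⟨pt k x y, pt_mem k x y⟩
  have h1 : ∀ j, j ≠ inl 0 →
      HasDerivAt (fun s => tot k Φ (ln k j x y s)) (L (Pi.single j 1)) 0 := fun j hj =>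
    hL (ln k j x y) _ 0 (fun t => ln_mem k hj x y t) (ln_zero k j x y) (hasDerivAt_ln k j x y 0)
  exact ⟨L, h1, fun j hj i => (hasDerivAt_pi.1 (h1 j hj) i).deriv, fun γ γ' h2 h3 h4 =>
    hL γ γ' 0 h2 h3 h4⟩

/-- The matrix is invertible. -/
lemma det_ne_zero {Φ : Zset k ≃ Zset k} (h : IsHolomorphicAut Φ) (x y : ℂ) :
    (MM k (fun z => ((Φ z : Zset k) : Idx k → ℂ)) x y).det ≠ 0 := by
  intro h0
  obtain ⟨v, hv, hM⟩ := Matrix.exists_mulVec_eq_zero_iff.2 h0
  apply hv
  obtain ⟨L, hL, hcol, -⟩ := exists_lin h.1 x y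
  set f : Zset k → (Idx k → ℂ) := fun z => ((Φ z : Zset k) : Idx k → ℂ) with hf
  set w : Zset k := Φ ⟨pt k x y, pt_mem k x y⟩ with hw
  obtain ⟨L', hL'⟩ := exists_fd h.2 w
  have htp : tot k f (pt k x y) = w := tot_mem f (pt_mem k x y)
  have hcurve : ∀ (j : Idx k) (hj : j ≠ inl 0) (s : ℂ),
      tot k f (ln k j x y s) = Φ ⟨ln k j x y s, ln_mem k hj x y s⟩ := fun j hj s =>
    tot_mem f (ln_mem k hj x y s)
  have hmem : ∀ (j : Idx k), j ≠ inl 0 → ∀ s : ℂ, tot k f (ln k j x y s) ∈ Zset k := by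
    intro j hj s
    rw [hcurve j hj s]
    exact (Φ ⟨ln k j x y s, ln_mem k hj x y s⟩).2
  -- the inverse
  have hinv : ∀ j, j ≠ inl 0 → L' (L (Pi.single j 1)) = Pi.single j 1 := by
    intro j hj
    have h1 := hL' (fun s => tot k f (ln k j x y s)) _ 0 (hmem j hj)
      (by rw [ln_zero]; exact htp) (hL j hj)
    have h2 : (fun s => tot k (fun z => ((Φ.symm z : Zset k) : Idx k → ℂ))
        (tot k f (ln k j x y s))) = ln k j x y := by
      funext s
      rw [tot_mem _ (hmem j hj s)]
      have h3 : (⟨tot k f (ln k j x y s), hmem j hj s⟩ : Zset k) =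
          Φ ⟨ln k j x y s, ln_mem k hj x y s⟩ := Subtype.ext (hcurve j hj s)
      rw [h3, Equiv.symm_apply_apply]
    rw [h2] at h1
    exact h1.unique (hasDerivAt_ln k j x y 0)
  -- the equation of the quadric
  set W : Idx k → ℂ := (w : Idx k → ℂ) with hW
  have hWq : W (inl 0) * (1 - W (inl 0)) = W (inl 1) * W (inl 2) := w.2
  have hgrad : ∀ j, j ≠ inl 0 → (1 - 2 * W (inl 0)) * L (Pi.single j 1) (inl 0)
      - W (inl 2) * L (Pi.single j 1) (inl 1) - W (inl 1) * L (Pi.single j 1) (inl 2) = 0 := by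
    intro j hj
    have h1 := hasDerivAt_pi.1 (hL j hj)
    have e0 : tot k f (ln k j x y 0) = W := by rw [ln_zero]; exact htp
    have a0 := h1 (inl 0)
    have a1 := h1 (inl 1)
    have a2 := h1 (inl 2)
    have h2 := (a0.mul (a0.const_sub 1)).sub (a1.mul a2)
    have h3 : (fun s => tot k f (ln k j x y s) (inl 0) * (1 - tot k f (ln k j x y s) (inl 0))
        - tot k f (ln k j x y s) (inl 1) * tot k f (ln k j x y s) (inl 2)) = fun _ => 0 := by
      funext s
      exact sub_eq_zero.2 (hmem j hj s)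
    have h4 := h2.unique (h3 ▸ hasDerivAt_const (0 : ℂ) (0 : ℂ))
    rw [e0] at h4
    linear_combination h4
  -- the vector `v` without its radial coordinate
  set v' : Idx k → ℂ := Function.update v (inl 0) 0 with hv'
  have hsum : v' = ∑ j, v' j • (Pi.single j 1 : Idx k → ℂ) := by
    funext i
    simp [Finset.sum_apply, Pi.single_apply]
  have hv0 : v' (inl 0) = 0 := by simp [hv']
  have hvj : ∀ j, j ≠ inl 0 → v' j = v j := by
    intro j hj
    simp [hv', hj]
  have hLv : L v' = ∑ j, v' j • L (Pi.single j 1) := by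
    conv_lhs => rw [hsum]
    rw [map_sum]
    simp only [map_smul]
  have hML : ∀ i, v (inl 0) * nn k W i + L v' i = 0 := by
    intro i
    have h1 := congrFun hM i
    rw [Matrix.mulVec, dotProduct, Pi.zero_apply] at h1
    rw [hLv, Finset.sum_apply, ← h1, ← Finset.add_sum_erase _ _ (Finset.mem_univ (inl 0 : Idx k)),
      ← Finset.add_sum_erase _ _ (Finset.mem_univ (inl 0 : Idx k)), ← add_assoc]
    congr 1
    · have h2 : MM k f x y i (inl 0) = nn k W i := by
        unfold MM
        rw [if_pos rfl, htp]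
      rw [h2, Pi.smul_apply, hv0, zero_smul, add_zero, mul_comm]
    · refine Finset.sum_congr rfl fun j hj => ?_
      have hj' : j ≠ inl 0 := Finset.ne_of_mem_erase hj
      simp only [MM, if_neg hj', Pi.smul_apply, smul_eq_mul]
      rw [hcol j hj' i, hvj j hj', mul_comm]
  have hgv : (1 - 2 * W (inl 0)) * L v' (inl 0) - W (inl 2) * L v' (inl 1)
      - W (inl 1) * L v' (inl 2) = 0 := by
    rw [hLv]
    simp only [Finset.sum_apply, Pi.smul_apply, smul_eq_mul, Finset.mul_sum]
    rw [← Finset.sum_sub_distrib, ← Finset.sum_sub_distrib]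
    refine Finset.sum_eq_zero fun j _ => ?_
    by_cases hj : j = inl 0
    · subst hj
      rw [hv0]
      ring
    · linear_combination v' j * hgrad j hj
  have hr : v (inl 0) = 0 := by
    have e0 := hML (inl 0)
    have e1 := hML (inl 1)
    have e2 := hML (inl 2)
    have n0 : nn k W (inl 0) = W (inl 0) - 1 / 2 := rfl
    have n1 : nn k W (inl 1) = W (inl 1) := rfl
    have n2 : nn k W (inl 2) = W (inl 2) := rfl
    rw [n0] at e0
    rw [n1] at e1
    rw [n2] at e2
    linear_combination (-2) * ((1 - 2 * W (inl 0)) * e0 - W (inl 2) * e1 - W (inl 1) * e2)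
      + 2 * hgv + 4 * v (inl 0) * hWq
  have hLv0 : L v' = 0 := by
    funext i
    have h1 := hML i
    rw [hr, zero_mul, zero_add] at h1
    exact h1
  have hv'0 : v' = 0 := by
    have h1 : L' (L v') = v' := by
      rw [hLv, map_sum]
      conv_rhs => rw [hsum]
      refine Finset.sum_congr rfl fun j _ => ?_
      rw [map_smul]
      by_cases hj : j = inl 0
      · subst hj
        rw [hv0, zero_smul, zero_smul]
      · rw [hinv j hj]
    rw [← h1, hLv0, map_zero]
  funext j
  by_cases hj : j = inl 0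
  · rw [hj, hr]
    rfl
  · rw [← hvj j hj, hv'0]

/-- the columns of the coordinates `q`, `r`, `z_j` on the circle -/
lemma col_free {f : Zset k → (Idx k → ℂ)} {x y : ℂ} {j : Idx k} (hj : IsFree k j)
    (hf : ∀ s, tot k f (ln k j x y s) = scale k (x ^ 2) (ln k j x y s)) (i : Idx k) :
    col k f j x y i = if i = j then (if j = inr (inr 0) then x ^ 2 else 1) else 0 := by
  unfold col
  have h1 : ∀ s : ℂ, tot k f (ln k j x y s) i = scale k (x ^ 2) (pt k x y) i
      + s * (if i = j then (if j = inr (inr 0) then x ^ 2 else 1) else 0) := by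
    intro s
    rw [hf s]
    by_cases hi : i = inr (inr 0)
    · subst hi
      rw [scale_0, scale_0, ln_apply, pt_z]
      by_cases hij : (inr (inr 0) : Idx k) = j
      · subst hij
        simp only [if_true]
        ring
      · simp only [if_neg hij]
        ring
    · rw [scale_ne k _ _ hi, scale_ne k _ _ hi, ln_apply]
      by_cases hij : i = j
      · subst hij
        simp only [if_true, if_neg hi]
        ring
      · simp only [if_neg hij]
        ring
  simp only [h1]
  have h2 : HasDerivAt (fun s : ℂ => scale k (x ^ 2) (pt k x y) i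
      + s * (if i = j then (if j = inr (inr 0) then x ^ 2 else 1) else 0))
      (if i = j then (if j = inr (inr 0) then x ^ 2 else 1) else 0) 0 := by
    have := ((hasDerivAt_id (0 : ℂ)).mul_const
      (if i = j then (if j = inr (inr 0) then x ^ 2 else 1) else 0)).const_add
      (scale k (x ^ 2) (pt k x y) i)
    rw [one_mul] at this
    exact this
  exact h2.deriv

lemma scale_pt (a x y : ℂ) : scale k a (pt k x y) = pt k x y := by
  funext i
  by_cases hi : i = inr (inr 0)
  · subst hi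
    rw [scale_0, pt_z, mul_zero]
  · rw [scale_ne k _ _ hi]

/-- the determinant on the circle -/
lemma det_circle {f : Zset k → (Idx k → ℂ)} {x y : ℂ}
    (hf : ∀ j, IsFree k j → ∀ s, tot k f (ln k j x y s) = scale k (x ^ 2) (ln k j x y s)) :
    (MM k f x y).det = (-1 / 2) * ((col k f (inr (inl 0)) x y (inr (inl 0)) *
      col k f (inr (inl 1)) x y (inr (inl 1)) - col k f (inr (inl 1)) x y (inr (inl 0)) *
      col k f (inr (inl 0)) x y (inr (inl 1))) * x ^ 2) := by
  have hpt : tot k f (pt k x y) = pt k x y := by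
    have h1 := hf (inl 1) (free_q k) 0
    rwa [ln_zero, scale_pt] at h1
  set M := MM k f x y with hM
  have hfree : ∀ j, IsFree k j → ∀ i, M i j
      = if i = j then (if j = inr (inr 0) then x ^ 2 else 1) else 0 := by
    intro j hj i
    have h1 : M i j = col k f j x y i := by
      rw [hM]
      unfold MM
      rw [if_neg hj.1]
    rw [h1, col_free hj (hf j hj)]
  have h0 : ∀ i, M i (inl 0) = if i = inl 0 then (-1 / 2 : ℂ) else 0 := by
    intro i
    have h1 : M i (inl 0) = nn k (pt k x y) i := by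
      rw [hM]
      unfold MM
      rw [if_pos rfl, hpt]
    rw [h1]
    revert i
    refine idx_cases k ?_ ?_ ?_ ?_ ?_ ?_
    · intro _
      rw [if_pos rfl]
      simp only [nn, Sum.elim_inl, Matrix.cons_val_zero, pt_l]
      norm_num
    · intro _
      rw [if_neg (by simp)]
      simp [nn, pt_l]
    · intro _
      rw [if_neg (by simp)]
      simp [nn, pt_l]
    · intro _
      rw [if_neg (by simp)]
      simp [nn]
    · intro _
      rw [if_neg (by simp)]
      simp [nn]
    · intro j _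
      rw [if_neg (by simp)]
      simp [nn]
  have h11 : M.toBlocks₁₁ = Matrix.diagonal ![(-1 / 2 : ℂ), 1, 1] := by
    ext a b
    change M (inl a) (inl b) = _
    fin_cases b
    · change M (inl a) (inl 0) = _
      rw [h0]
      fin_cases a <;> simp
    · change M (inl a) (inl 1) = _
      rw [hfree _ (free_q k)]
      fin_cases a <;> simp
    · change M (inl a) (inl 2) = _
      rw [hfree _ (free_r k)]
      fin_cases a <;> simp
  have h21 : M.toBlocks₂₁ = 0 := by
    ext a b
    change M (inr a) (inl b) = 0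
    fin_cases b
    · change M (inr a) (inl 0) = _
      rw [h0, if_neg (by simp)]
    · change M (inr a) (inl 1) = _
      rw [hfree _ (free_q k), if_neg (by simp)]
    · change M (inr a) (inl 2) = _
      rw [hfree _ (free_r k), if_neg (by simp)]
  set N := M.toBlocks₂₂ with hN
  have h12 : N.toBlocks₁₂ = 0 := by
    ext a b
    change M (inr (inl a)) (inr (inr b)) = 0
    rw [hfree _ (free_z k b), if_neg (by simp)]
  have h22 : N.toBlocks₂₂ = Matrix.diagonal fun j => if j = 0 then x ^ 2 else 1 := by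
    ext a b
    change M (inr (inr a)) (inr (inr b)) = _
    rw [hfree _ (free_z k b)]
    by_cases hab : a = b
    · subst hab
      simp
    · rw [Matrix.diagonal_apply_ne _ hab, if_neg]
      intro h
      exact hab (Sum.inr_injective (Sum.inr_injective h))
  have e1 : M.det = M.toBlocks₁₁.det * N.det := by
    conv_lhs => rw [← Matrix.fromBlocks_toBlocks M, h21]
    rw [Matrix.det_fromBlocks_zero₂₁]
  have e2 : N.det = N.toBlocks₁₁.det * N.toBlocks₂₂.det := by
    conv_lhs => rw [← Matrix.fromBlocks_toBlocks N, h12]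
    rw [Matrix.det_fromBlocks_zero₁₂]
  have e3 : N.toBlocks₁₁.det = col k f (inr (inl 0)) x y (inr (inl 0)) *
      col k f (inr (inl 1)) x y (inr (inl 1)) - col k f (inr (inl 1)) x y (inr (inl 0)) *
      col k f (inr (inl 0)) x y (inr (inl 1)) := by
    rw [Matrix.det_fin_two]
    rfl
  rw [e1, e2, h11, h22, e3, Matrix.det_diagonal, Matrix.det_diagonal]
  simp [Fin.prod_univ_three, Finset.prod_ite_eq']

lemma pt_free {x y : ℂ} {i : Idx k} (hi : IsFree k i) : pt k x y i = 0 := by
  revert hi i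
  intro i hi
  rcases i with i | i | j
  · rfl
  · obtain ⟨-, h1, h2⟩ := hi
    fin_cases i
    · exact absurd rfl h1
    · exact absurd rfl h2
  · rfl

lemma ln_x {j : Idx k} (hj : IsFree k j) (x y s : ℂ) : ln k j x y s (inr (inl 0)) = x := by
  rw [ln_apply, pt_x, if_neg (Ne.symm hj.2.1), add_zero]

lemma ln_y {j : Idx k} (hj : IsFree k j) (x y s : ℂ) : ln k j x y s (inr (inl 1)) = y := by
  rw [ln_apply, pt_y, if_neg (Ne.symm hj.2.2), add_zero]

lemma ln_mem_X {j : Idx k} (hj : IsFree k j) {x y : ℂ} (h : x * y = 1) (s : ℂ) :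
    ln k j x y s ∈ Xset k := by
  refine ⟨ln_mem k hj.1 x y s, ?_⟩
  rw [ln_x hj, ln_y hj, h]

lemma ln_mem_S {j : Idx k} (hj : IsFree k j) {x y : ℂ} (h : x * y = 1) (s : ℂ) :
    ln k j x y s ∈ Sset k := by
  refine ⟨?_, fun i i' hi hi' hii => ?_, fun i hi => ?_⟩
  · rw [ln_apply, pt_l, if_neg (Ne.symm hj.1), add_zero]
  · rw [ln_apply, ln_apply, pt_free hi, pt_free hi', zero_add, zero_add]
    by_cases h1 : i = j
    · have h2 : i' ≠ j := fun h3 => hii (h1.trans h3.symm)
      rw [if_neg h2, mul_zero]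
    · rw [if_neg h1, zero_mul]
  · rw [ln_x hj, ln_y hj, h, sub_self, mul_zero]

lemma pt_mem_X {x y : ℂ} (h : x * y = 1) : pt k x y ∈ Xset k := by
  rw [← ln_zero k (inl 1)]
  exact ln_mem_X (free_q k) h 0

lemma pt_mem_S (x y : ℂ) : pt k x y ∈ Sset k :=
  ⟨rfl, fun i i' hi _ _ => by rw [pt_free hi, zero_mul],
    fun i hi => by rw [pt_free hi, zero_mul]⟩

lemma ln_dir_x (x y s : ℂ) : ln k (inr (inl 0)) x y s = pt k (x + s) y := by
  funext i
  rw [ln_apply]
  revert i
  refine idx_cases k ?_ ?_ ?_ ?_ ?_ ?_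
  · simp [pt_l]
  · simp [pt_l]
  · simp [pt_l]
  · simp [pt_x]
  · simp [pt_y]
  · intro j
    simp [pt_z]

lemma ln_dir_y (x y s : ℂ) : ln k (inr (inl 1)) x y s = pt k x (y + s) := by
  funext i
  rw [ln_apply]
  revert i
  refine idx_cases k ?_ ?_ ?_ ?_ ?_ ?_
  · simp [pt_l]
  · simp [pt_l]
  · simp [pt_l]
  · simp [pt_x]
  · simp [pt_y]
  · intro j
    simp [pt_z]

lemma col_fix {f : Zset k → (Idx k → ℂ)} {x y : ℂ} {j : Idx k}
    (hf : ∀ s, tot k f (ln k j x y s) = ln k j x y s) (i : Idx k) :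
    col k f j x y i = if i = j then 1 else 0 := by
  unfold col
  have h1 : ∀ s : ℂ, tot k f (ln k j x y s) i = pt k x y i + s * (if i = j then 1 else 0) := by
    intro s
    rw [hf s, ln_apply]
    split_ifs <;> ring
  simp only [h1]
  have h2 : HasDerivAt (fun s : ℂ => pt k x y i + s * (if i = j then 1 else 0))
      (if i = j then 1 else 0) 0 := by
    have := ((hasDerivAt_id (0 : ℂ)).mul_const
      (if i = j then (1 : ℂ) else 0)).const_add (pt k x y i)
    rw [one_mul] at this
    exact this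
  exact h2.deriv

/-- the circle `(ζ̄, ζ)` -/
lemma continuous_det {f : Zset k → (Idx k → ℂ)} (h : IsHolomorphicMap f) :
    Continuous fun ζ : ℂ => (MM k f (conj ζ) ζ).det := by
  have h1 : Continuous fun ζ : ℂ => (conj ζ, ζ) := Complex.continuous_conj.prodMk continuous_id
  exact (continuous_MM h).comp h1

theorem no_ext_S (Φ : Zset k ≃ Zset k) (h : IsHolomorphicAut Φ) : ¬ Extends Φ (psi k) := by
  intro hE
  set f : Zset k → (Idx k → ℂ) := fun z => ((Φ z : Zset k) : Idx k → ℂ) with hf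
  have hext : ∀ u ∈ Sset k, tot k f u = scale k (u (inr (inl 0)) ^ 2) u := by
    intro u hu
    rw [tot_mem f (S_sub_Z k hu)]
    exact hE ⟨u, hu⟩ ⟨u, S_sub_Z k hu⟩ rfl
  have hplane : ∀ x y, tot k f (pt k x y) = pt k x y := by
    intro x y
    rw [hext _ (pt_mem_S x y), scale_pt]
  refine Ins.no_winding_pow (g := fun ζ => (-2) * (MM k f (conj ζ) ζ).det)
    (continuous_const.mul (continuous_det h.1))
    (fun ζ => mul_ne_zero (by norm_num) (det_ne_zero h _ _)) one_le_two ?_
  intro ζ hζ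
  have h1 : conj ζ * ζ = 1 := Ins.normSq_one.2 hζ
  change ζ ^ 2 * ((-2) * (MM k f (conj ζ) ζ).det) = 1
  have hx : ∀ i, col k f (inr (inl 0)) (conj ζ) ζ i = if i = inr (inl 0) then 1 else 0 :=
    col_fix fun s => by rw [ln_dir_x, hplane]
  have hy : ∀ i, col k f (inr (inl 1)) (conj ζ) ζ i = if i = inr (inl 1) then 1 else 0 :=
    col_fix fun s => by rw [ln_dir_y, hplane]
  rw [det_circle (f := f), hx, hx, hy, hy]
  · rw [if_pos rfl, if_pos rfl, if_neg (by simp), if_neg (by simp)]
    linear_combination (conj ζ * ζ + 1) * h1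
  · intro j hj s
    rw [hext _ (ln_mem_S hj h1 s), ln_x hj]

theorem no_ext_X (Φ : Zset k ≃ Zset k) (h : IsHolomorphicAut Φ) : ¬ Extends Φ (phi k) := by
  intro hE
  set f : Zset k → (Idx k → ℂ) := fun z => ((Φ z : Zset k) : Idx k → ℂ) with hf
  have hext : ∀ u ∈ Xset k, tot k f u = scale k (u (inr (inl 0)) ^ 2) u := by
    intro u hu
    rw [tot_mem f (X_sub_Z k hu)]
    exact hE ⟨u, hu⟩ ⟨u, X_sub_Z k hu⟩ rfl
  have hcurve : ∀ x y, x * y = 1 → tot k f (pt k x y) = pt k x y := by
    intro x y hxy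
    rw [hext _ (pt_mem_X hxy), scale_pt]
  -- only points of `X` are mapped to `X`
  have hinv : ∀ z : Zset k, ((Φ z : Zset k) : Idx k → ℂ) ∈ Xset k → (z : Idx k → ℂ) ∈ Xset k := by
    intro z hz
    set v : Xset k := (phi k).symm ⟨_, hz⟩ with hv
    have h2 := hE v ⟨v, X_sub_Z k v.2⟩ rfl
    have h3 : ((phi k v : Xset k) : Idx k → ℂ) = ((Φ z : Zset k) : Idx k → ℂ) := by
      rw [hv, Equiv.apply_symm_apply]
    have h4 : Φ ⟨v, X_sub_Z k v.2⟩ = Φ z := Subtype.ext (h2.trans h3)
    have h5 := Φ.injective h4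
    rw [← h5]
    exact v.2
  -- the function `(x y - 1) ∘ Φ` on the plane
  set G : ℂ → ℂ → ℂ := fun x y =>
    tot k f (pt k x y) (inr (inl 0)) * tot k f (pt k x y) (inr (inl 1)) - 1 with hG
  have hGc : Continuous fun p : ℂ × ℂ => G p.1 p.2 :=
    ((continuous_tot_pt h.1 (inr (inl 0))).mul (continuous_tot_pt h.1 (inr (inl 1)))).sub
      continuous_const
  have hGd : ∀ y, Differentiable ℂ fun x => G x y := by
    intro y
    have h1 : ∀ i, Differentiable ℂ fun x => tot k f (pt k x y) i := by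
      intro i
      have h2 := differentiable_ln h.1 (j := inr (inl 0)) (by simp) 0 y i
      simp only [ln_dir_x, zero_add] at h2
      exact h2
    exact ((h1 _).mul (h1 _)).sub_const 1
  have hG0 : ∀ x y, x * y = 1 → G x y = 0 := by
    intro x y hxy
    simp only [hG]
    rw [hcurve x y hxy, pt_x, pt_y, hxy, sub_self]
  have hGne : ∀ x y, x * y ≠ 1 → G x y ≠ 0 := by
    intro x y hxy h1
    have h2 : tot k f (pt k x y) = Φ ⟨pt k x y, pt_mem k x y⟩ := tot_mem f (pt_mem k x y)
    have h3 : ((Φ ⟨pt k x y, pt_mem k x y⟩ : Zset k) : Idx k → ℂ) ∈ Xset k := by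
      refine ⟨(Φ ⟨pt k x y, pt_mem k x y⟩).2, ?_⟩
      rw [← h2]
      exact sub_eq_zero.1 h1
    have h4 := (hinv _ h3).2
    exact hxy h4
  obtain ⟨e, hec, he0, he1⟩ := Ins.exists_quotient hGc hGd hG0 hGne
  -- the determinant on the circle
  have hdet : ∀ ζ : ℂ, ‖ζ‖ = 1 →
      (MM k f (conj ζ) ζ).det = (-1 / 2) * (e ζ * (conj ζ) ^ 2) := by
    intro ζ hζ
    have h1 : conj ζ * ζ = 1 := Ins.normSq_one.2 hζ
    obtain ⟨L, hL, hcol, hcv⟩ := exists_lin h.1 (conj ζ) ζ
    set x := conj ζ with hx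
    have hp : tot k f (pt k x ζ) = pt k x ζ := hcurve x ζ h1
    -- the derivative of `G`
    have hdG : Ins.dG G x ζ = col k f (inr (inl 0)) x ζ (inr (inl 0)) * ζ
        + x * col k f (inr (inl 0)) x ζ (inr (inl 1)) := by
      have h2 := hasDerivAt_pi.1 (hL (inr (inl 0)) (by simp))
      have h3 := ((h2 (inr (inl 0))).mul (h2 (inr (inl 1)))).sub_const 1
      have h4 : (fun s => G (x + s) ζ) = fun s =>
          tot k f (ln k (inr (inl 0)) x ζ s) (inr (inl 0)) *
            tot k f (ln k (inr (inl 0)) x ζ s) (inr (inl 1)) - 1 := by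
        funext s
        rw [ln_dir_x]
      unfold Ins.dG
      rw [h4]
      refine h3.deriv.trans ?_
      rw [ln_zero, hp, pt_x, pt_y, hcol _ (by simp), hcol _ (by simp)]
    -- the tangent direction
    have hγ : HasDerivAt (fun s : ℂ => pt k (x * Complex.exp s) (ζ * Complex.exp (-s)))
        (pt k x (-ζ)) 0 := by
      rw [hasDerivAt_pi]
      have hx' : HasDerivAt (fun s : ℂ => x * Complex.exp s) x 0 := by
        have := (Complex.hasDerivAt_exp (0 : ℂ)).const_mul x
        rw [Complex.exp_zero, mul_one] at this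
        exact this
      have hy' : HasDerivAt (fun s : ℂ => ζ * Complex.exp (-s)) (-ζ) 0 := by
        have h5 := (Complex.hasDerivAt_exp (-(0 : ℂ))).comp (0 : ℂ) (hasDerivAt_neg (0 : ℂ))
        have h6 : Complex.exp (-(0 : ℂ)) * (-1 : ℂ) = -1 := by simp
        rw [h6] at h5
        have h7 := h5.const_mul ζ
        rw [mul_neg, mul_one] at h7
        exact h7
      refine idx_cases k ?_ ?_ ?_ ?_ ?_ ?_
      · exact hasDerivAt_const _ _
      · exact hasDerivAt_const _ _
      · exact hasDerivAt_const _ _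
      · exact hx'
      · exact hy'
      · intro j
        exact hasDerivAt_const _ _
    have hmul : ∀ s : ℂ, (x * Complex.exp s) * (ζ * Complex.exp (-s)) = 1 := by
      intro s
      have h8 : Complex.exp s * Complex.exp (-s) = 1 := by
        rw [← Complex.exp_add, add_neg_cancel, Complex.exp_zero]
      linear_combination (Complex.exp s * Complex.exp (-s)) * h1 + h8
    have ht : L (pt k x (-ζ)) = pt k x (-ζ) := by
      have h2 := hcv _ _ (fun s => pt_mem k _ _) (by simp) hγ
      have h3 : (fun s : ℂ => tot k f (pt k (x * Complex.exp s) (ζ * Complex.exp (-s))))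
          = fun s : ℂ => pt k (x * Complex.exp s) (ζ * Complex.exp (-s)) := by
        funext s
        exact hcurve _ _ (hmul s)
      rw [h3] at h2
      exact h2.unique hγ
    have hsplit : pt k x (-ζ) = x • (Pi.single (inr (inl 0)) 1 : Idx k → ℂ)
        + (-ζ) • (Pi.single (inr (inl 1)) 1 : Idx k → ℂ) := by
      funext i
      revert i
      refine idx_cases k ?_ ?_ ?_ ?_ ?_ ?_
      · simp [pt_l]
      · simp [pt_l]
      · simp [pt_l]
      · simp [pt_x]
      · simp [pt_y]
      · intro j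
        simp [pt_z]
    have hrow : ∀ a, col k f (inr (inl 0)) x ζ a * x - col k f (inr (inl 1)) x ζ a * ζ
        = pt k x (-ζ) a := by
      intro a
      have h4 := congrFun ht a
      rw [hsplit, map_add, map_smul, map_smul, ← hsplit] at h4
      rw [hcol _ (by simp) a, hcol _ (by simp) a, ← h4]
      simp only [Pi.add_apply, Pi.smul_apply, smul_eq_mul]
      ring
    have r0 := hrow (inr (inl 0))
    have r1 := hrow (inr (inl 1))
    rw [pt_x] at r0
    rw [pt_y] at r1
    rw [det_circle (f := f) (fun j hj s => by rw [hext _ (ln_mem_X hj h1 s), ln_x hj]),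
      he1 ζ hζ, ← hx, hdG]
    have hz2 : ζ ≠ 0 := right_ne_zero_of_mul_eq_one h1
    set A0 := col k f (inr (inl 0)) x ζ (inr (inl 0))
    set A1 := col k f (inr (inl 0)) x ζ (inr (inl 1))
    set B0 := col k f (inr (inl 1)) x ζ (inr (inl 0))
    set B1 := col k f (inr (inl 1)) x ζ (inr (inl 1))
    have hb : B0 = x * (A0 * x - x) := by
      apply mul_right_cancel₀ hz2
      linear_combination (-1 : ℂ) * r0 - (A0 * x - x) * h1
    have hd : B1 = x * (A1 * x + ζ) := by
      apply mul_right_cancel₀ hz2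
      linear_combination (-1 : ℂ) * r1 - (A1 * x + ζ) * h1
    rw [hb, hd]
    ring
  have he : ∀ ζ, e ζ ≠ 0 := by
    intro ζ
    by_cases hζ : ‖ζ‖ = 1
    · intro h1
      have h2 := hdet ζ hζ
      rw [h1, zero_mul, mul_zero] at h2
      exact det_ne_zero h _ _ h2
    · exact he0 ζ hζ
  refine Ins.no_winding_pow (g := fun ζ => (-2) * (MM k f (conj ζ) ζ).det * (e ζ)⁻¹)
    ((continuous_const.mul (continuous_det h.1)).mul (hec.inv₀ he))
    (fun ζ => mul_ne_zero (mul_ne_zero (by norm_num) (det_ne_zero h _ _)) (inv_ne_zero (he ζ)))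
    one_le_two ?_
  intro ζ hζ
  have h1 : conj ζ * ζ = 1 := Ins.normSq_one.2 hζ
  change ζ ^ 2 * ((-2) * (MM k f (conj ζ) ζ).det * (e ζ)⁻¹) = 1
  rw [hdet ζ hζ]
  have h2 := mul_inv_cancel₀ (he ζ)
  linear_combination (conj ζ ^ 2 * ζ ^ 2) * h2 + (conj ζ * ζ + 1) * h1

end analytic

end Pool.Agent.Lib.MP_563419_an.Iso
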